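import Mathlib

/-! Project GS (helper89): one exceptional set for countably many problems. -/

set_option autoImplicit false

namespace Pool.Agent.N89.GS

open Filter

/-- `x / log x * (c - 1 / log x) → ∞` -/
theorem tendsto_aux (c : ℝ) (hc : 0 < c) :
    Tendsto (fun x : ℝ => x / Real.log x * (c - 1 / Real.log x)) atTop atTop := by
  have h1 : Tendsto (fun x : ℝ => x / Real.log x) atTop atTop := by
    have h2 : Tendsto (fun x : ℝ => Real.log x / x) atTop (nhds 0) := by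
      have := Real.isLittleO_log_id_atTop.tendsto_div_nhds_zero
      exact this
    have h3 : ∀ᶠ x : ℝ in atTop, 0 < Real.log x / x := by
      filter_upwards [eventually_gt_atTop 1] with x hx
      exact div_pos (Real.log_pos hx) (by linarith)
    have h4 := (tendsto_nhdsWithin_iff.2 ⟨h2, h3⟩).inv_tendsto_nhdsGT_zero
    refine h4.congr fun x => ?_
    simp
  have h5 : Tendsto (fun x : ℝ => c - 1 / Real.log x) atTop (nhds (c - 0)) := by
    refine tendsto_const_nhds.sub ?_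
    exact (tendsto_const_nhds (x := (1 : ℝ))).div_atTop Real.tendsto_log_atTop
  rw [sub_zero] at h5
  exact h1.atTop_mul_pos hc h5

/-- one exceptional set for countably many sets -/
theorem diag {X I : Type} [Countable I] (ht : X → ℕ → Prop)
    (hmono : ∀ x H H', H ≤ H' → ht x H → ht x H') (hfin : ∀ H, {x | ht x H}.Finite) (n : ℕ)
    (B : I → Set X)
    (hB : ∀ i, ∃ c : ℝ, 0 < c ∧ ∃ H₀ : ℕ, ∀ H : ℕ, H₀ ≤ H →
      (({x | ht x H ∧ x ∈ B i}.ncard : ℕ) : ℝ) ≤
        (2 * (H : ℝ) + 1) ^ n * Real.exp (-c * (Real.log H / Real.log (Real.log H)))) :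
    ∃ E : Set X, (∃ H₀ : ℕ, ∀ H : ℕ, H₀ ≤ H → (({x | ht x H ∧ x ∈ E}.ncard : ℕ) : ℝ) ≤
        (2 * (H : ℝ) + 1) ^ n * Real.exp (-(Real.log H / Real.log (Real.log H) ^ 2))) ∧
      ∀ i, (B i \ E).Finite := by
  classical
  obtain ⟨f, hf⟩ := exists_injective_nat I
  have key : ∀ i, ∃ H₁ : ℕ, f i ≤ H₁ ∧ ∀ H : ℕ, H₁ ≤ H →
      (({x | ht x H ∧ x ∈ B i}.ncard : ℕ) : ℝ) ≤
        (1 / 2) ^ (f i + 1) * ((2 * (H : ℝ) + 1) ^ n *
          Real.exp (-(Real.log H / Real.log (Real.log H) ^ 2))) := by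
    intro i
    obtain ⟨c, hc, H₀, hH₀⟩ := hB i
    have h1 : Tendsto (fun H : ℕ => Real.log (H : ℝ)) atTop atTop :=
      Real.tendsto_log_atTop.comp tendsto_natCast_atTop_atTop
    have h2 := (tendsto_aux c hc).comp h1
    have h3 := h2.eventually_ge_atTop ((f i + 1 : ℕ) * Real.log 2)
    have h4 := (Real.tendsto_log_atTop.comp h1).eventually_gt_atTop 1
    obtain ⟨H₁, hH₁⟩ := eventually_atTop.1 (h3.and h4)
    refine ⟨max (f i) (max H₀ H₁), le_max_left _ _, fun H hH => ?_⟩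
    have hH0 : H₀ ≤ H := ((le_max_left _ _).trans (le_max_right _ _)).trans hH
    have hH1 : H₁ ≤ H := ((le_max_right _ _).trans (le_max_right _ _)).trans hH
    obtain ⟨h5, h6⟩ := hH₁ H hH1
    simp only [Function.comp_apply] at h5 h6
    refine (hH₀ H hH0).trans ?_
    have h7 : Real.exp (-c * (Real.log H / Real.log (Real.log H))) ≤
        (1 / 2) ^ (f i + 1) * Real.exp (-(Real.log H / Real.log (Real.log H) ^ 2)) := by
      have h8 : ((1 : ℝ) / 2) ^ (f i + 1) = Real.exp (-((f i + 1 : ℕ) * Real.log 2)) := by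
        rw [Real.exp_neg, Real.exp_nat_mul, Real.exp_log (by norm_num), one_div, inv_pow]
      rw [h8, ← Real.exp_add]
      apply Real.exp_le_exp.2
      have h9 : Real.log H / Real.log (Real.log H) * (c - 1 / Real.log (Real.log H)) =
          c * (Real.log H / Real.log (Real.log H)) -
            Real.log H / Real.log (Real.log H) ^ 2 := by
        have h10 : Real.log (Real.log H) ≠ 0 := by linarith
        field_simp
      rw [h9] at h5
      linarith
    calc (2 * (H : ℝ) + 1) ^ n * Real.exp (-c * (Real.log H / Real.log (Real.log H)))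
        ≤ (2 * (H : ℝ) + 1) ^ n * ((1 / 2) ^ (f i + 1) *
          Real.exp (-(Real.log H / Real.log (Real.log H) ^ 2))) :=
          mul_le_mul_of_nonneg_left h7 (by positivity)
      _ = _ := by ring
  choose H₁ hH₁f hH₁ using key
  refine ⟨{x | ∃ i, x ∈ B i ∧ ¬ ht x (H₁ i)}, ⟨0, fun H _ => ?_⟩, fun i => ?_⟩
  · set bd : ℝ := (2 * (H : ℝ) + 1) ^ n * Real.exp (-(Real.log H / Real.log (Real.log H) ^ 2))
      with hbd
    have hbd0 : 0 ≤ bd := by positivity
    have hS : {i : I | f i < H}.Finite :=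
      Set.Finite.of_injOn (f := f) (t := Set.Iio H) (fun i hi => hi) hf.injOn (Set.finite_Iio H)
    set S : Finset I := hS.toFinset.filter (fun i => H₁ i < H) with hSdef
    have hsub : {x | ht x H ∧ x ∈ {x | ∃ i, x ∈ B i ∧ ¬ ht x (H₁ i)}} ⊆
        ⋃ i ∈ S, {x | ht x H ∧ x ∈ B i} := by
      rintro x ⟨hx, i, hxi, hxn⟩
      have h1 : H₁ i < H := by
        by_contra hcon
        exact hxn (hmono x H (H₁ i) (not_lt.1 hcon) hx)
      rw [Set.mem_iUnion₂]
      refine ⟨i, ?_, hx, hxi⟩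
      rw [hSdef, Finset.mem_filter, Set.Finite.mem_toFinset]
      exact ⟨lt_of_le_of_lt (hH₁f i) h1, h1⟩
    have hfin2 : (⋃ i ∈ S, {x | ht x H ∧ x ∈ B i}).Finite :=
      Set.Finite.biUnion S.finite_toSet fun i _ => (hfin H).subset fun x hx => hx.1
    have h2 : (({x | ht x H ∧ x ∈ {x | ∃ i, x ∈ B i ∧ ¬ ht x (H₁ i)}}.ncard : ℕ) : ℝ) ≤
        ∑ i ∈ S, (({x | ht x H ∧ x ∈ B i}.ncard : ℕ) : ℝ) := by
      have h3 := (Set.ncard_le_ncard hsub hfin2).trans (Finset.set_ncard_biUnion_le _ _)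
      exact_mod_cast h3
    have h3 : ∑ i ∈ S, (({x | ht x H ∧ x ∈ B i}.ncard : ℕ) : ℝ) ≤
        ∑ i ∈ S, (1 / 2 : ℝ) ^ (f i + 1) * bd := by
      refine Finset.sum_le_sum fun i hi => ?_
      rw [hSdef, Finset.mem_filter] at hi
      exact hH₁ i H hi.2.le
    have h4 : ∑ i ∈ S, (1 / 2 : ℝ) ^ (f i + 1) ≤ 1 := by
      have h5 : ∑ i ∈ S, (1 / 2 : ℝ) ^ (f i + 1) = ∑ j ∈ S.image f, (1 / 2 : ℝ) ^ (j + 1) := by
        rw [Finset.sum_image (fun i _ i' _ h => hf h)]
      rw [h5]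
      have h6 : ∑ j ∈ S.image f, (1 / 2 : ℝ) ^ (j + 1) ≤ ∑' j : ℕ, (1 / 2 : ℝ) ^ (j + 1) := by
        apply Summable.sum_le_tsum
        · intro j _
          positivity
        · have := summable_geometric_two
          exact (summable_nat_add_iff 1).2 this
      refine h6.trans (le_of_eq ?_)
      have h7 : ∀ j : ℕ, (1 / 2 : ℝ) ^ (j + 1) = 1 / 2 * (1 / 2) ^ j := fun j => by ring
      simp only [h7]
      rw [tsum_mul_left, tsum_geometric_two]
      norm_num
    refine h2.trans (h3.trans ?_)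
    rw [← Finset.sum_mul]
    calc (∑ i ∈ S, (1 / 2 : ℝ) ^ (f i + 1)) * bd ≤ 1 * bd :=
          mul_le_mul_of_nonneg_right h4 hbd0
      _ = bd := one_mul _
  · refine (hfin (H₁ i)).subset ?_
    rintro x ⟨hx, hxn⟩
    by_contra hcon
    exact hxn ⟨i, hx, hcon⟩

end Pool.Agent.N89.GS
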