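import Pool.Agent.N89.GS.Main
import Pool.Agent.N89.GS.Diag

/-! Project GS (helper89): one exceptional set for all number fields `L` and all groups `Γ`. -/

set_option autoImplicit false

namespace Pool.Agent.N89.GS

open MvPolynomial NumberField Pool.Agent.H901R3.MS Pool.Agent.W659 Pool.Agent.W659.SA
  IntermediateField

/-- the coefficient vectors `c` of the members `Φ j + ∑ x, c_(j,x) Λ j x` such that the complete
intersection in `𝒯` has a point over `L` with torus coordinates in `Γ` -/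
def BadAll {K L : Type} [Field K] [NumberField K] [Field L] [Algebra K L] {N κ r s m q : ℕ}
    (ω : Module.Basis (Fin N) ℤ (𝓞 K)) (a b : Fin r → ℤ) (Γ : Subgroup Lˣ)
    (G : Fin q → Pol (𝓞 K) r s m) (Φ : Fin κ → Pol (𝓞 K) r s m) {ι : Fin κ → Type}
    [∀ j, Fintype (ι j)] (Λ : (j : Fin κ) → ι j → Pol (𝓞 K) r s m) :
    Set ((Σ j, ι j) × Fin N → ℤ) :=
  {c | ∃ (V : Fin r → Fin 3 → L) (u : Fin s → Lˣ) (T : Fin m → L),
    (∀ i, FD.OnE (a i) (b i) (V i)) ∧ (∀ l, u l ∈ Γ) ∧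
    OnF (toL K L) G V (fun l => ((u l : Lˣ) : L)) T ∧
    ∀ j, vl (toL K L) (Φ j) V (fun l => ((u l : Lˣ) : L)) T +
      ∑ x, toL K L (∑ i, c (⟨j, x⟩, i) • ω i) *
        vl (toL K L) (Λ j x) V (fun l => ((u l : Lˣ) : L)) T = 0}

/-- transport along a homomorphism -/
theorem badAll_mono {K L L' : Type} [Field K] [NumberField K] [Field L] [Algebra K L] [Field L']
    [Algebra K L'] (g : L →ₐ[K] L') {N κ r s m q : ℕ}
    (ω : Module.Basis (Fin N) ℤ (𝓞 K)) (a b : Fin r → ℤ) (Γ : Subgroup Lˣ) (Γ' : Subgroup L'ˣ)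
    (hΓ : ∀ x ∈ Γ, Units.map (g : L →* L') x ∈ Γ')
    (G : Fin q → Pol (𝓞 K) r s m) (Φ : Fin κ → Pol (𝓞 K) r s m) {ι : Fin κ → Type}
    [∀ j, Fintype (ι j)] (Λ : (j : Fin κ) → ι j → Pol (𝓞 K) r s m) :
    BadAll ω a b Γ G Φ Λ ⊆ BadAll ω a b Γ' G Φ Λ := by
  have hcomp : (g : L →+* L').comp (toL K L) = toL K L' := by
    ext x
    exact g.commutes _
  have hvl : ∀ (P : Pol (𝓞 K) r s m) (V : Fin r → Fin 3 → L) (u : Fin s → L) (T : Fin m → L),
      g (vl (toL K L) P V u T) = vl (toL K L') P (fun i j => g (V i j)) (fun l => g (u l))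
        (fun i => g (T i)) := by
    intro P V u T
    have h := vl_map (toL K L) (g : L →+* L') P V u T
    rw [hcomp] at h
    exact h
  rintro c ⟨V, u, T, hV, hu, ⟨hT0, hT⟩, hc⟩
  refine ⟨fun i j => g (V i j), fun l => Units.map (g : L →* L') (u l), fun i => g (T i),
    fun i => onE_map (g : L →+* L') (hV i), fun l => hΓ _ (hu l), ⟨?_, fun e => ?_⟩, fun j => ?_⟩
  · intro h0
    apply hT0
    funext i
    exact g.injective ((congrFun h0 i).trans (map_zero g).symm)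
  · have h := hvl (G e) V (fun l => ((u l : Lˣ) : L)) T
    rw [hT e, map_zero] at h
    exact h.symm
  · have h := congrArg g (hc j)
    rw [map_add, map_sum, hvl, map_zero] at h
    refine Eq.trans ?_ h
    congr 1
    refine Finset.sum_congr rfl fun x _ => ?_
    rw [map_mul, hvl]
    congr 1
    exact (congrArg (fun f : 𝓞 K →+* L' => f (∑ i, c (⟨j, x⟩, i) • ω i)) hcomp).symm

instance countable_numberField (K : Type) [Field K] [NumberField K] : Countable K := by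
  have h := Algebra.IsAlgebraic.cardinalMk_le_max ℚ K
  rw [← Cardinal.mk_le_aleph0_iff]
  refine h.trans ?_
  rw [Cardinal.mkRat, max_self]

instance countable_closure (K : Type) [Field K] [NumberField K] : Countable (AlgebraicClosure K) := by
  have h := Algebra.IsAlgebraic.cardinalMk_le_max K (AlgebraicClosure K)
  rw [← Cardinal.mk_le_aleph0_iff]
  refine h.trans ?_
  rw [max_le_iff]
  exact ⟨Cardinal.mk_le_aleph0_iff.2 inferInstance, le_rfl⟩

instance countable_units (L : Type) [Monoid L] [Countable L] : Countable Lˣ :=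
  Function.Injective.countable (f := fun x : Lˣ => (x : L)) Units.val_injective

/-- **One exceptional set for all fields and groups.** -/
theorem uniGS (K : Type) [Field K] [NumberField K] {r s m q κ : ℕ}
    (a b : Fin r → ℤ) (G : Fin q → Pol (𝓞 K) r s m) (σ : K →+* ℂ) (k₀ : ℕ)
    (hM : MainGS K κ a b G σ k₀)
    (Φ : Fin κ → Pol (𝓞 K) r s m) (ι : Fin κ → Type) [∀ j, Fintype (ι j)]
    (Λ : (j : Fin κ) → ι j → Pol (𝓞 K) r s m) (d : Fin κ → Fin r → ℕ) (e : Fin κ → ℕ)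
    (hdΦ : ∀ j, MHomog (Φ j) (d j)) (heΦ : ∀ j, THomog (Φ j) (e j))
    (hdΛ : ∀ j x, MHomog (Λ j x) (d j)) (heΛ : ∀ j x, THomog (Λ j x) (e j))
    (hsf : ∀ j, SepFib (toC σ) a b G (Λ j) k₀) (N : ℕ) (ω : Module.Basis (Fin N) ℤ (𝓞 K)) :
    ∃ E : Set ((Σ j, ι j) × Fin N → ℤ),
      (∃ H₀ : ℕ, ∀ H : ℕ, H₀ ≤ H → (({c : (Σ j, ι j) × Fin N → ℤ |
        (∀ i, |c i| ≤ (H : ℤ)) ∧ c ∈ E}.ncard : ℕ) : ℝ) ≤
        (2 * (H : ℝ) + 1) ^ (Fintype.card (Σ j, ι j) * N) *
          Real.exp (-(Real.log H / Real.log (Real.log H) ^ 2))) ∧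
      ∀ (L : Type) [Field L] [NumberField L] [Algebra K L],
        (Function.Surjective (algebraMap K L) ∨ ∀ j, SepTwo (toC σ) a b G (Λ j) k₀) →
        ∀ Γ : Subgroup Lˣ, Γ.FG → (BadAll ω a b Γ G Φ Λ \ E).Finite := by
  classical
  -- the index set
  let I : Type := {i : (Σ θ : AlgebraicClosure K, Finset (K⟮θ⟯)ˣ) //
    Function.Surjective (algebraMap K K⟮i.1⟯) ∨ ∀ j, SepTwo (toC σ) a b G (Λ j) k₀}
  have hI : Countable I := inferInstance
  have hNF : ∀ θ : AlgebraicClosure K, NumberField K⟮θ⟯ := by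
    intro θ
    have h1 : FiniteDimensional K K⟮θ⟯ :=
      IntermediateField.adjoin.finiteDimensional (Algebra.IsIntegral.isIntegral θ)
    exact NumberField.of_module_finite K K⟮θ⟯
  obtain ⟨E, hE1, hE2⟩ := diag (X := (Σ j, ι j) × Fin N → ℤ) (I := I)
    (fun (c : (Σ j, ι j) × Fin N → ℤ) (H : ℕ) => ∀ i, |c i| ≤ (H : ℤ))
    (fun c H H' h hc i => (hc i).trans (by exact_mod_cast h))
    (fun H => by
      refine Set.Finite.subset (Box ((Σ j, ι j) × Fin N) H).finite_toSet ?_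
      intro c hc
      rw [Finset.mem_coe]
      unfold Box
      rw [Fintype.mem_piFinset]
      intro i
      rw [Finset.mem_Icc]
      exact abs_le.1 (hc i))
    (Fintype.card (Σ j, ι j) * N)
    (fun i => BadAll ω a b (Subgroup.closure (i.1.2 : Set (K⟮i.1.1⟯)ˣ)) G Φ Λ) (by
      intro i
      have := hNF i.1.1
      obtain ⟨c, hc, H₀, h⟩ := hM Φ ι Λ d e hdΦ heΦ hdΛ heΛ hsf K⟮i.1.1⟯ i.2
        (Subgroup.closure (i.1.2 : Set (K⟮i.1.1⟯)ˣ)) ⟨i.1.2, rfl⟩ N ω
      exact ⟨c, hc, H₀, fun H hH => h H hH⟩)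
  refine ⟨E, hE1, ?_⟩
  intro L _ _ _ hL Γ hΓ
  have hfd : FiniteDimensional K L := inferInstance
  obtain ⟨α, hα⟩ := Field.exists_primitive_element K L
  let f : L →ₐ[K] AlgebraicClosure K := IsAlgClosed.lift
  have hmem : ∀ x, f x ∈ K⟮f α⟯ := by
    intro x
    have h1 : x ∈ K⟮α⟯ := by rw [hα]; exact IntermediateField.mem_top
    have h2 : (K⟮α⟯).map f = K⟮f α⟯ := by
      rw [IntermediateField.adjoin_map, Set.image_singleton]
    rw [← h2]
    exact ⟨x, h1, rfl⟩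
  let g : L →ₐ[K] K⟮f α⟯ := f.codRestrict (K⟮f α⟯).toSubalgebra hmem
  have hgs : Function.Surjective g := by
    rintro ⟨y, hy⟩
    have h1 : K⟮f α⟯ ≤ f.fieldRange := by
      rw [IntermediateField.adjoin_simple_le_iff]
      exact ⟨α, rfl⟩
    obtain ⟨x, hx⟩ := h1 hy
    exact ⟨x, Subtype.ext hx⟩
  have hsw : Function.Surjective (algebraMap K K⟮f α⟯) ∨ ∀ j, SepTwo (toC σ) a b G (Λ j) k₀ := by
    rcases hL with h | h
    · left
      intro y
      obtain ⟨x, rfl⟩ := hgs y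
      obtain ⟨z, rfl⟩ := h x
      exact ⟨z, (g.commutes z).symm⟩
    · exact Or.inr h
  obtain ⟨S, hS⟩ := hΓ
  have h1 := badAll_mono g ω a b Γ
    (Subgroup.closure ((S.image (Units.map (g : L →* K⟮f α⟯)) : Finset (K⟮f α⟯)ˣ) :
      Set (K⟮f α⟯)ˣ)) (by
      intro x hx
      rw [← hS] at hx
      have h2 : Subgroup.map (Units.map (g : L →* K⟮f α⟯)) (Subgroup.closure (S : Set Lˣ)) =
          Subgroup.closure ((S.image (Units.map (g : L →* K⟮f α⟯)) : Finset (K⟮f α⟯)ˣ) :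
            Set (K⟮f α⟯)ˣ) := by
        rw [MonoidHom.map_closure, Finset.coe_image]
      rw [← h2]
      exact ⟨x, hx, rfl⟩) G Φ Λ
  refine (hE2 ⟨⟨f α, S.image (Units.map (g : L →* K⟮f α⟯))⟩, hsw⟩).subset ?_
  exact Set.sdiff_subset_sdiff_left h1

end Pool.Agent.N89.GS
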