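import Pool.Agent.W659.SA.Defs

/-!
# Project GS (helper89): complete intersections in arbitrary varieties over semiabelian varieties

`K` is a number field, `G = E_1 × ⋯ × E_r × G_m^s`, and `𝒯 ⊂ G × ℙ^(m-1)` is an arbitrary closed
subscheme given by polynomials `G e`. Definitions and statements of the tasks.
-/

set_option autoImplicit false

namespace Pool.Agent.N89.GS

open MvPolynomial NumberField Pool.Agent.W659 Pool.Agent.W659.SA

/-- homogeneous of degree `e` in the last group of variables -/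
def THomog {O : Type} [CommRing O] {r s m : ℕ} (F : Pol O r s m) (e : ℕ) : Prop :=
  ∀ μ ∈ F.support, ∑ i, μ (Sum.inr (Sum.inr i)) = e

/-- `(V, u)` represents a point of `E_1 × ⋯ × E_r × G_m^s` -/
def OnB {k : Type} [Field k] {r s : ℕ} (a b : Fin r → ℤ) (V : Fin r → Fin 3 → k) (u : Fin s → k) :
    Prop := (∀ i, FD.OnE (a i) (b i) (V i)) ∧ ∀ l, u l ≠ 0

/-- `T` represents a point of the fibre of `𝒯` over `(V, u)` -/
def OnF {O k : Type} [CommRing O] [Field k] (φ : O →+* k) {r s m q : ℕ} (G : Fin q → Pol O r s m)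
    (V : Fin r → Fin 3 → k) (u : Fin s → k) (T : Fin m → k) : Prop :=
  T ≠ 0 ∧ ∀ e, vl φ (G e) V u T = 0

/-- all complex fibres of `𝒯` over `G` have dimension at most `κ`: for every complex point `(V, u)`
of `G` there are `κ + 1` linear forms without a common zero on the fibre over `(V, u)` -/
def DimLE {K : Type} [Field K] (σ : K →+* ℂ) {r s m q : ℕ} (a b : Fin r → ℤ)
    (G : Fin q → Pol (𝓞 K) r s m) (κ : ℕ) : Prop :=
  ∀ (V : Fin r → Fin 3 → ℂ) (u : Fin s → ℂ), OnB a b V u →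
    ∃ ℓ : Fin (κ + 1) → Fin m → ℂ, ∀ T, OnF (toC σ) G V u T → ∃ i, ∑ j, ℓ i j * T j ≠ 0

/-- the linear system `Λ` separates any `k₀` points in the same fibre of `𝒯` over `G`: the
vectors of the values of the sections at any `l ≤ k₀` different points of a fibre are linearly
independent -/
def SepFib {O k : Type} [CommRing O] [Field k] (φ : O →+* k) {r s m q : ℕ} (a b : Fin r → ℤ)
    (G : Fin q → Pol O r s m) {ι : Type} (Λ : ι → Pol O r s m) (k₀ : ℕ) : Prop :=
  ∀ (V : Fin r → Fin 3 → k) (u : Fin s → k), OnB a b V u → ∀ l ≤ k₀, ∀ T : Fin l → Fin m → k,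
    (∀ i, OnF φ G V u (T i)) → (∀ i j, i ≠ j → ∀ c : k, T i ≠ c • T j) →
      LinearIndependent k (fun i => fun x => vl φ (Λ x) V u (T i))

/-- `(V, u)` and `(V', u')` represent the same point of `E_1 × ⋯ × E_r × G_m^s` -/
def SameB {k : Type} [Field k] {r s : ℕ} (V : Fin r → Fin 3 → k) (u : Fin s → k)
    (V' : Fin r → Fin 3 → k) (u' : Fin s → k) : Prop :=
  (∀ i, ∃ c : k, V i = c • V' i) ∧ u = u'

/-- the linear system `Λ` separates any `k₀` points of `𝒯` which lie over (at most) two different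
points `(V, u)` and `(V', u')` of `G`; the point `T i` lies over `(V', u')` if `g i` is true -/
def SepTwo {O k : Type} [CommRing O] [Field k] (φ : O →+* k) {r s m q : ℕ} (a b : Fin r → ℤ)
    (G : Fin q → Pol O r s m) {ι : Type} (Λ : ι → Pol O r s m) (k₀ : ℕ) : Prop :=
  ∀ (V V' : Fin r → Fin 3 → k) (u u' : Fin s → k), OnB a b V u → OnB a b V' u' →
    ¬ SameB V u V' u' → ∀ l ≤ k₀, ∀ (g : Fin l → Bool) (T : Fin l → Fin m → k),
    (∀ i, OnF φ G (cond (g i) V' V) (cond (g i) u' u) (T i)) →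
    (∀ i j, i ≠ j → g i = g j → ∀ c : k, T i ≠ c • T j) →
      LinearIndependent k (fun i => fun x => vl φ (Λ x) (cond (g i) V' V) (cond (g i) u' u) (T i))

/-! ### Statements of the tasks -/

/-- NUL: elimination theory. For homogeneous polynomials `g i` over a noetherian ring there are an
exponent `N₀` and finitely many `a ∈ A` such that `a X^α ∈ (g i)` for all monomials of degree `N₀`,
and such that `A` does not vanish at any geometric point at which the `g i` have no nontrivial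
common zero -/
def S_NUL : Prop := ∀ (R : Type) [CommRing R] [IsNoetherianRing R] (m : ℕ) (ι : Type) [Finite ι]
  (g : ι → MvPolynomial (Fin m) R) (f : ι → ℕ), (∀ i, (g i).IsHomogeneous (f i)) →
  ∃ (N₀ : ℕ) (A : Finset R),
    (∀ a ∈ A, ∀ α : Fin m →₀ ℕ, ∑ j, α j = N₀ →
      C a * monomial α (1 : R) ∈ Ideal.span (Set.range g)) ∧
    ∀ (k : Type) [Field k] [IsAlgClosed k] (ψ : R →+* k),
      (∀ T : Fin m → k, T ≠ 0 → ∃ i, eval₂ ψ T (g i) ≠ 0) → ∃ a ∈ A, ψ a ≠ 0

/-- CNT: if modulo `g i` and the linear forms `ℓ i` all monomials of degree `N₀` vanish, the affine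
cone of `g i = 0` has at most `C |k|^(number of the ℓ i)` points -/
def S_CNT : Prop := ∀ (m n N₀ : ℕ), ∃ D : ℕ, ∀ (k k' : Type) [Field k] [Fintype k] [Field k']
  [Algebra k k'] (ι : Type) (g : ι → MvPolynomial (Fin m) k') (f : ι → ℕ)
  (ℓ : Fin n → MvPolynomial (Fin m) k'), (∀ i, (g i).IsHomogeneous (f i)) →
  (∀ i, (ℓ i).IsHomogeneous 1) →
  (∀ α : Fin m →₀ ℕ, ∑ j, α j = N₀ →
    monomial α (1 : k') ∈ Ideal.span (Set.range g ∪ Set.range ℓ)) →
  Nat.card {T : Fin m → k // ∀ i, eval (fun j => algebraMap k k' (T j)) (g i) = 0} ≤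
    D * Fintype.card k ^ n

/-- FIB: the number of the points of the affine cones of the fibres over finite fields -/
def S_FIB : Prop := ∀ (K : Type) [Field K] [NumberField K] (r s m q κ : ℕ) (a b : Fin r → ℤ)
  (G : Fin q → Pol (𝓞 K) r s m) (f : Fin q → ℕ), (∀ e, THomog (G e) (f e)) → ∀ σ : K →+* ℂ,
  DimLE σ a b G κ → ∃ D p₁ : ℕ, ∀ p : ℕ, p.Prime → p₁ ≤ p → ∀ (k : Type) [Field k] [Fintype k]
    [CharP k p] (φ : 𝓞 K →+* k) (V : Fin r → Fin 3 → k) (u : Fin s → k), OnB a b V u →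
      Nat.card {T : Fin m → k // ∀ e, vl φ (G e) V u T = 0} ≤ D * Fintype.card k ^ (κ + 1)

/-- TSF: transfer of the separation of points of the fibres -/
def S_TSF : Prop := ∀ (K : Type) [Field K] [NumberField K] (r s m q : ℕ) (a b : Fin r → ℤ)
  (G : Fin q → Pol (𝓞 K) r s m) (ι : Type) [Finite ι] (Λ : ι → Pol (𝓞 K) r s m) (k₀ : ℕ)
  (σ : K →+* ℂ), SepFib (toC σ) a b G Λ k₀ →
  ∃ p₁ : ℕ, ∀ p : ℕ, p.Prime → p₁ ≤ p → ∀ (k : Type) [Field k] [CharP k p] (φ : 𝓞 K →+* k),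
    SepFib φ a b G Λ k₀

/-- TSW: transfer of the separation of points over two points of `G` -/
def S_TSW : Prop := ∀ (K : Type) [Field K] [NumberField K] (r s m q : ℕ) (a b : Fin r → ℤ)
  (G : Fin q → Pol (𝓞 K) r s m) (ι : Type) [Finite ι] (Λ : ι → Pol (𝓞 K) r s m) (k₀ : ℕ)
  (σ : K →+* ℂ), SepTwo (toC σ) a b G Λ k₀ →
  ∃ p₁ : ℕ, ∀ p : ℕ, p.Prime → p₁ ≤ p → ∀ (k : Type) [Field k] [CharP k p] (φ : 𝓞 K →+* k),
    SepTwo φ a b G Λ k₀

/-- BON: events of which any `k₀` are independent, with bounded sum of probabilities -/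
def S_BON : Prop := ∀ D : ℕ, ∃ (k₀ : ℕ) (δ : ℝ), 0 < δ ∧ δ < 1 ∧
  ∀ (C : Type) [Fintype C] (α : Type) (Z : Finset α) (E : α → Set C) (p : α → ℝ),
  (∀ T ∈ Z, 0 ≤ p T ∧ p T ≤ 1 / 2) → ∑ T ∈ Z, p T ≤ D →
  (∀ I : Finset α, I ⊆ Z → I.card ≤ k₀ →
    (({c : C | ∀ T ∈ I, c ∈ E T}.ncard : ℕ) : ℝ) = Fintype.card C * ∏ T ∈ I, p T) →
  (({c : C | ∃ T ∈ Z, c ∈ E T}.ncard : ℕ) : ℝ) ≤ (1 - δ) * Fintype.card C

/-- LIN: the number of the solutions over `F` of a system of affine equations over `k`, `k = F` or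
`k` quadratic over `F`. The equations with index in `R` have coefficients in `F`, and the others
are independent together with their conjugates -/
def S_LIN : Prop := ∀ (F k : Type) [Field F] [Fintype F] [Field k] [Fintype k] [Algebra F k]
  (σ : k →+* k), Fintype.card k = Fintype.card F ^ 2 → (∀ x, σ x = x ^ Fintype.card F) →
  ∀ (ι : Type) [Fintype ι] (l : ℕ) (R : Finset (Fin l)) (w : Fin l → ι → k) (y : Fin l → k),
  (∀ i ∈ R, (∀ x, ∃ z : F, algebraMap F k z = w i x) ∧ ∃ z : F, algebraMap F k z = y i) →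
  LinearIndependent k (Sum.elim w (fun i : {i : Fin l // i ∉ R} => fun x => σ (w i.1 x))) →
  {c : ι → F | ∀ i, ∑ x, algebraMap F k (c x) * w i x = y i}.ncard *
    Fintype.card F ^ (R.card + 2 * (l - R.card)) = Fintype.card F ^ Fintype.card ι

/-- LIN1: the number of the solutions of a system of independent equations over `k` -/
def S_LIN1 : Prop := ∀ (k : Type) [Field k] [Fintype k] (ι : Type) [Fintype ι] (l : ℕ)
  (w : Fin l → ι → k) (y : Fin l → k), LinearIndependent k w →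
  {c : ι → k | ∀ i, ∑ x, c x * w i x = y i}.ncard * Fintype.card k ^ l =
    Fintype.card k ^ Fintype.card ι

/-- the monomial `V^μ u^x T^α` -/
noncomputable def mon {O : Type} [CommRing O] {r s m : ℕ} (μ : Fin r → Fin 3 → ℕ) (x : Fin s → ℕ)
    (α : Fin m → ℕ) : Pol O r s m :=
  (∏ i, ∏ j, X (Sum.inl (i, j)) ^ μ i j) *
    ((∏ l, X (Sum.inr (Sum.inl l)) ^ x l) * ∏ i, X (Sum.inr (Sum.inr i)) ^ α i)

/-- MON: a system which contains all monomials `V^μ u^x T^α`, `μ` of multidegree `d`, `α` of degree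
`e ≥ k₀ - 1`, `x = x₀`, separates any `k₀` points in the same fibre. If moreover all `d i ≥ 1` and the
system contains also the monomials with `x = x₀ + ε_l`, it separates any `k₀` points over two points
of `G` -/
def S_MON : Prop := ∀ (O k : Type) [CommRing O] [Field k] (φ : O →+* k) (r s m q : ℕ)
  (a b : Fin r → ℤ) (G : Fin q → Pol O r s m) (ι : Type) (Λ : ι → Pol O r s m) (k₀ : ℕ)
  (d : Fin r → ℕ) (e : ℕ) (x₀ : Fin s → ℕ), k₀ ≤ e + 1 →
  (∀ (μ : Fin r → Fin 3 → ℕ) (α : Fin m → ℕ), (∀ i, ∑ j, μ i j = d i) → ∑ i, α i = e →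
    ∃ y, Λ y = mon μ x₀ α) →
  SepFib φ a b G Λ k₀ ∧
  ((∀ i, 1 ≤ d i) → (∀ (μ : Fin r → Fin 3 → ℕ) (α : Fin m → ℕ) (l : Fin s),
    (∀ i, ∑ j, μ i j = d i) → ∑ i, α i = e →
      ∃ y, Λ y = mon μ (Function.update x₀ l (x₀ l + 1)) α) → SepTwo φ a b G Λ k₀)

end Pool.Agent.N89.GS
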