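import Pool.Agent.N89.GS.Cls
import Pool.Agent.N89.GS.Stm

/-! Project GS (helper89): the number of the points of the fibres over finite fields. -/

set_option autoImplicit false

namespace Pool.Agent.N89.GS

open MvPolynomial NumberField Pool.Agent.W659 Pool.Agent.W659.SA

section

variable {O : Type} [CommRing O] {r s m q κ : ℕ}

/-- the equations of the generic fibre, in the variables `T` over the ring of polynomials in `V`,
`u` and the coefficients of `κ + 1` linear forms -/
noncomputable def gE (G : Fin q → Pol O r s m) (κ : ℕ) :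
    Fin q ⊕ Fin (κ + 1) → MvPolynomial (Fin m) (Pol O r s ((κ + 1) * m)) :=
  Sum.elim
    (fun e => vl (C.comp C) (G e) (fun i j => C (X (Sum.inl (i, j))))
      (fun l => C (X (Sum.inr (Sum.inl l)))) X)
    (fun i => ∑ j, C (X (Sum.inr (Sum.inr (finProdFinEquiv (i, j))))) * X j)

theorem vl_homog {R : Type} [CommRing R] (φ : O →+* R) (G : Pol O r s m) (e : ℕ)
    (hG : THomog G e) (V : Fin r → Fin 3 → R) (u : Fin s → R) :
    (vl ((C : R →+* MvPolynomial (Fin m) R).comp φ) G (fun i j => C (V i j))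
      (fun l => C (u l)) X).IsHomogeneous e := by
  rw [vl_expand]
  refine IsHomogeneous.sum _ _ _ fun μ hμ => ?_
  have h1 : (∏ k : Fin m, (X k : MvPolynomial (Fin m) R) ^
      μ (Sum.inr (Sum.inr k))).IsHomogeneous e := by
    have h2 := IsHomogeneous.prod (Finset.univ : Finset (Fin m))
      (fun k => (X k : MvPolynomial (Fin m) R) ^ μ (Sum.inr (Sum.inr k)))
      (fun k => μ (Sum.inr (Sum.inr k))) (fun k _ => isHomogeneous_X_pow k _)
    rw [hG μ hμ] at h2
    exact h2
  have h3 : ((C : R →+* MvPolynomial (Fin m) R).comp φ) (coeff μ G) *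
      ((∏ i : Fin r, ∏ j : Fin 3, (C (V i j) : MvPolynomial (Fin m) R) ^ μ (Sum.inl (i, j))) *
      ((∏ l : Fin s, (C (u l) : MvPolynomial (Fin m) R) ^ μ (Sum.inr (Sum.inl l))) *
          ∏ k : Fin m, X k ^ μ (Sum.inr (Sum.inr k)))) =
      C (φ (coeff μ G) * ((∏ i : Fin r, ∏ j : Fin 3, V i j ^ μ (Sum.inl (i, j))) *
        ∏ l : Fin s, u l ^ μ (Sum.inr (Sum.inl l)))) *
        ∏ k : Fin m, X k ^ μ (Sum.inr (Sum.inr k)) := by
    simp only [RingHom.comp_apply, map_mul, map_prod, map_pow]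
    ring
  rw [h3]
  exact h1.C_mul _

theorem gE_homog (G : Fin q → Pol O r s m) (f : Fin q → ℕ) (hG : ∀ e, THomog (G e) (f e))
    (i : Fin q ⊕ Fin (κ + 1)) : (gE G κ i).IsHomogeneous (Sum.elim f (fun _ => 1) i) := by
  rcases i with e | i
  · exact vl_homog (C : O →+* Pol O r s ((κ + 1) * m)) (G e) (f e) (hG e)
      (fun i j => X (Sum.inl (i, j))) (fun l => X (Sum.inr (Sum.inl l)))
  · show (∑ j, C (X (Sum.inr (Sum.inr (finProdFinEquiv (i, j))))) * X j :
      MvPolynomial (Fin m) (Pol O r s ((κ + 1) * m))).IsHomogeneous 1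
    refine IsHomogeneous.sum _ _ _ fun j _ => ?_
    exact isHomogeneous_C_mul_X _ _

theorem eval_gE_inl {A : Type} [CommRing A] (G : Fin q → Pol O r s m)
    (ψ : Pol O r s ((κ + 1) * m) →+* A) (T : Fin m → A) (e : Fin q) :
    eval₂ ψ T (gE G κ (Sum.inl e)) = vl (ψ.comp C) (G e) (fun i j => ψ (X (Sum.inl (i, j))))
      (fun l => ψ (X (Sum.inr (Sum.inl l)))) T := by
  have h := vl_map (C.comp C : O →+* MvPolynomial (Fin m) (Pol O r s ((κ + 1) * m)))
    (eval₂Hom ψ T) (G e) (fun i j => C (X (Sum.inl (i, j))))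
      (fun l => C (X (Sum.inr (Sum.inl l)))) X
  refine h.trans ?_
  congr 1
  · ext x
    simp
  · funext i j
    simp
  · funext l
    simp
  · funext l
    simp

theorem eval_gE_inr {A : Type} [CommRing A] (G : Fin q → Pol O r s m)
    (ψ : Pol O r s ((κ + 1) * m) →+* A) (T : Fin m → A) (i : Fin (κ + 1)) :
    eval₂ ψ T (gE G κ (Sum.inr i)) =
      ∑ j, ψ (X (Sum.inr (Sum.inr (finProdFinEquiv (i, j))))) * T j := by
  show eval₂ ψ T (∑ j, C (X (Sum.inr (Sum.inr (finProdFinEquiv (i, j))))) * X j) = _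
  rw [eval₂_sum]
  refine Finset.sum_congr rfl fun j _ => ?_
  rw [eval₂_mul, eval₂_C, eval₂_X]

end

theorem fib (hNUL : S_NUL) (hCNT : S_CNT) (hTRZ : S_TRZ) : S_FIB := by
  classical
  intro K _ _ r s m q κ a b G f hf σ hdim
  obtain ⟨N₀, A, hA1, hA2⟩ := hNUL (Pol (𝓞 K) r s ((κ + 1) * m)) m (Fin q ⊕ Fin (κ + 1))
    (gE G κ) (Sum.elim f (fun _ => 1)) (fun i => gE_homog G f hf i)
  obtain ⟨D, hD⟩ := hCNT m (κ + 1) N₀
  obtain ⟨p₁, hp₁⟩ := hTRZ K r s ((κ + 1) * m) a b A (fun a => a.1) σ (by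
    intro V u hV hu
    obtain ⟨ℓ, hℓ⟩ := hdim V u ⟨hV, hu⟩
    set ℓ' : Fin ((κ + 1) * m) → ℂ := fun x => ℓ (finProdFinEquiv.symm x).1
      (finProdFinEquiv.symm x).2 with hℓ'
    obtain ⟨x, hx, hx0⟩ := hA2 ℂ (eval₂Hom (toC σ) (Sum.elim (fun ij => V ij.1 ij.2)
      (Sum.elim u ℓ'))) (by
      intro T hT
      by_contra hcon
      push Not at hcon
      obtain ⟨i, hi⟩ := hℓ T ⟨hT, fun e => by
        have h1 := hcon (Sum.inl e)
        rw [eval_gE_inl] at h1
        rw [← h1]
        congr 1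
        · ext x
          simp
        · funext i j
          simp
        · funext l
          simp⟩
      apply hi
      have h1 := hcon (Sum.inr i)
      rw [eval_gE_inr] at h1
      rw [← h1]
      refine Finset.sum_congr rfl fun j _ => ?_
      rw [eval₂Hom_X']
      simp only [Sum.elim_inr, hℓ', Equiv.symm_apply_apply])
    refine ⟨⟨x, hx⟩, fun h0 => hx0 ?_⟩
    have h1 := vl_eq (toC σ) x V u ℓ'
    rw [h0, map_zero] at h1
    exact h1)
  refine ⟨D, p₁, ?_⟩
  intro p hp hpp k _ _ _ φ V u hV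
  obtain ⟨⟨x, hx⟩, hx0⟩ := hp₁ p hp hpp k φ V u hV.1 hV.2
  set k' := FractionRing (MvPolynomial (Fin ((κ + 1) * m)) k) with hk'
  set ψ : Pol (𝓞 K) r s ((κ + 1) * m) →+* k' :=
    (algebraMap (MvPolynomial (Fin ((κ + 1) * m)) k) k').comp
      (eval₂Hom (C.comp φ) (Sum.elim (fun ij => C (V ij.1 ij.2)) (Sum.elim (fun l => C (u l)) X)))
    with hψ
  have hψx : ψ x ≠ 0 := by
    intro h0
    apply hx0
    apply IsFractionRing.injective (MvPolynomial (Fin ((κ + 1) * m)) k) k'
    rw [map_zero]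
    exact h0
  have halg : ∀ z : k, algebraMap k k' z =
      algebraMap (MvPolynomial (Fin ((κ + 1) * m)) k) k' (C z) := fun z => rfl
  have hev : ∀ (T : Fin m → k) (e : Fin q),
      eval (fun j => algebraMap k k' (T j)) (map ψ (gE G κ (Sum.inl e))) =
        algebraMap k k' (vl φ (G e) V u T) := by
    intro T e
    rw [eval_map, eval_gE_inl, vl_map φ (algebraMap k k') (G e) V u T]
    congr 1
    · ext y
      simp only [hψ, RingHom.comp_apply, eval₂Hom_C, halg]
    · funext i j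
      simp only [hψ, RingHom.comp_apply, eval₂Hom_X', Sum.elim_inl, halg]
    · funext l
      simp only [hψ, RingHom.comp_apply, eval₂Hom_X', Sum.elim_inl, Sum.elim_inr, halg]
  have h := hD k k' (Fin q) (fun e => map ψ (gE G κ (Sum.inl e))) f
    (fun i => map ψ (gE G κ (Sum.inr i))) (fun e => (gE_homog G f hf (Sum.inl e)).map ψ)
    (fun i => (gE_homog G f hf (Sum.inr i)).map ψ) (by
      intro α hα
      have h1 := Ideal.mem_map_of_mem (map ψ) (hA1 x hx α hα)
      rw [Ideal.map_span, ← Set.range_comp] at h1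
      have h2 : Set.range (map ψ ∘ gE G κ) =
          Set.range (fun e => map ψ (gE G κ (Sum.inl e))) ∪
            Set.range (fun i => map ψ (gE G κ (Sum.inr i))) := by
        rw [← Sum.elim_comp_inl_inr (map ψ ∘ gE G κ), Set.Sum.elim_range]
        rfl
      rw [h2, map_mul, map_C, map_monomial, map_one] at h1
      have h3 := Ideal.mul_mem_left _ (C (ψ x)⁻¹) h1
      rw [← mul_assoc, ← C_mul, inv_mul_cancel₀ hψx, C_1, one_mul] at h3
      exact h3)
  refine le_trans (le_of_eq ?_) h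
  apply Nat.card_congr
  refine Equiv.subtypeEquivRight fun T => forall_congr' fun e => ?_
  rw [hev]
  constructor
  · intro h0
    rw [h0, map_zero]
  · intro h0
    exact (algebraMap k k').injective (h0.trans (map_zero _).symm)

end Pool.Agent.N89.GS
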