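import Pool.Agent.N89.GS.Sieve
import Pool.Agent.N89.GS.Fib

/-! Project GS (helper89): the sieve inequality with given primes, second part. -/

set_option autoImplicit false

namespace Pool.Agent.N89.GS

open MvPolynomial NumberField Pool.Agent.H901R3.MS Pool.Agent.W659 Pool.Agent.W659.SA

theorem surj_ringOfIntegers {K L : Type} [Field K] [NumberField K] [Field L] [NumberField L]
    [Algebra K L] (h : Function.Surjective (algebraMap K L)) :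
    Function.Surjective (algebraMap (𝓞 K) (𝓞 L)) := by
  intro x
  obtain ⟨y, hy⟩ := h (x : L)
  have h1 : IsIntegral ℤ y := by
    have h2 : IsIntegral ℤ (algebraMap K L y) := by
      rw [hy]
      exact RingOfIntegers.isIntegral_coe x
    exact (isIntegral_algebraMap_iff (algebraMap K L).injective).1 h2
  refine ⟨⟨y, h1⟩, ?_⟩
  apply RingOfIntegers.ext
  exact hy

/-- the sieve inequality with given primes -/
def SieveGS (K : Type) [Field K] [NumberField K] {r s m q : ℕ} (κ : ℕ) (a b : Fin r → ℤ)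
    (G : Fin q → Pol (𝓞 K) r s m) (σ : K →+* ℂ) (k₀ : ℕ) (δ : ℝ) : Prop :=
  ∀ (Φ : Fin κ → Pol (𝓞 K) r s m) (ι : Fin κ → Type) [∀ j, Fintype (ι j)]
    (Λ : (j : Fin κ) → ι j → Pol (𝓞 K) r s m) (d : Fin κ → Fin r → ℕ) (e : Fin κ → ℕ),
    (∀ j, MHomog (Φ j) (d j)) → (∀ j, THomog (Φ j) (e j)) → (∀ j x, MHomog (Λ j x) (d j)) →
    (∀ j x, THomog (Λ j x) (e j)) → (∀ j, SepFib (toC σ) a b G (Λ j) k₀) →
  ∀ (L : Type) [Field L] [NumberField L] [Algebra K L],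
    (Function.Surjective (algebraMap K L) ∨ ∀ j, SepTwo (toC σ) a b G (Λ j) k₀) →
  ∀ (Γ : Subgroup Lˣ), Γ.FG → ∀ (N : ℕ) (ω : Module.Basis (Fin N) ℤ (𝓞 K)),
  ∃ p₀ R : ℕ, ∀ (T : Finset ℕ) (M : ℕ), GoodT L p₀ T M → ∀ H : ℕ, ∏ p ∈ T, p ≤ 2 * H + 1 →
    (((Bad ω a b Γ G Φ Λ H).ncard : ℕ) : ℝ) ≤
      (2 * (2 * (H : ℝ) + 1)) ^ Fintype.card ((Σ j, ι j) × Fin N) *
        ((M : ℝ) ^ R * (1 - δ) ^ T.card)

theorem sieveGS (hBON : S_BON) (hLIN : S_LIN) (hLIN1 : S_LIN1) (hFIB : S_FIB) (hTSF : S_TSF)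
    (hTSW : S_TSW) (K : Type) [Field K] [NumberField K] (r s m q κ : ℕ) (hκ : 1 ≤ κ)
    (a b : Fin r → ℤ) (hab : ∀ i, a i * b i = 0 ∧ (a i ≠ 0 ∨ b i ≠ 0))
    (G : Fin q → Pol (𝓞 K) r s m) (dG : Fin q → Fin r → ℕ) (fG : Fin q → ℕ)
    (hdG : ∀ e, MHomog (G e) (dG e)) (hfG : ∀ e, THomog (G e) (fG e)) (σ : K →+* ℂ)
    (hdim : DimLE σ a b G κ) :
    ∃ (k₀ : ℕ) (δ : ℝ), 0 < δ ∧ δ < 1 ∧ SieveGS K κ a b G σ k₀ δ := by
  classical
  obtain ⟨D, p₁, hfib⟩ := hFIB K r s m q κ a b G fG hfG σ hdim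
  obtain ⟨k₀, δ, hδ0, hδ1, hloc⟩ := localD hBON hLIN hLIN1 D
  refine ⟨k₀, δ, hδ0, hδ1, ?_⟩
  intro Φ ι _ Λ d e hdΦ heΦ hdΛ heΛ hsf L _ _ _ hsw Γ hΓ N ω
  obtain ⟨p₀, R, hcl⟩ := t_classesT L r s a b hab Γ hΓ
  choose p₂ hp₂ using fun j => hTSF K r s m q a b G (ι j) (Λ j) k₀ σ (hsf j)
  have h3 : ∃ p₃ : ℕ, Function.Surjective (algebraMap K L) ∨ ∀ j, ∀ p : ℕ, p.Prime → p₃ ≤ p →
      ∀ (k : Type) [Field k] [CharP k p] (φ : 𝓞 K →+* k), SepTwo φ a b G (Λ j) k₀ := by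
    rcases hsw with h | h
    · exact ⟨0, Or.inl h⟩
    · choose p₃ hp₃ using fun j => hTSW K r s m q a b G (ι j) (Λ j) k₀ σ (h j)
      refine ⟨∑ j, p₃ j, Or.inr fun j p hp hpp k _ _ φ => hp₃ j p hp ?_ k φ⟩
      exact (Finset.single_le_sum (f := p₃) (fun _ _ => Nat.zero_le _) (Finset.mem_univ j)).trans hpp
  obtain ⟨p₃, hp₃⟩ := h3
  refine ⟨p₀ + p₁ + ∑ j, p₂ j + p₃, R, ?_⟩
  intro T M hT H hH
  obtain ⟨hM, hT⟩ := hT
  have hTp : ∀ p ∈ T, p.Prime := fun p hp => (hT p hp).1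
  obtain ⟨Q, _, hQ, cls, hcls⟩ := hcl M hM
  -- the local data
  have key : ∀ p : ℕ, p ∈ T → ∃ G0 : Q → Set ((Σ j, ι j) × Fin N → ZMod p),
      (∀ x, (((G0 x).ncard : ℕ) : ℝ) ≤ (1 - δ) * (p : ℝ) ^ Fintype.card ((Σ j, ι j) × Fin N)) ∧
      ∀ (V : Fin r → Fin 3 → L) (u : Fin s → Lˣ) (T : Fin m → L) (c : (Σ j, ι j) × Fin N → ℤ),
        (∀ i, FD.OnE (a i) (b i) (V i)) → (∀ l, u l ∈ Γ) →
        OnF (toL K L) G V (fun l => ((u l : Lˣ) : L)) T →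
        (∀ j, vl (toL K L) (Φ j) V (fun l => ((u l : Lˣ) : L)) T +
          ∑ x, toL K L (∑ i, c (⟨j, x⟩, i) • ω i) *
            vl (toL K L) (Λ j x) V (fun l => ((u l : Lˣ) : L)) T = 0) →
        (fun s => (c s : ZMod p)) ∈ G0 (cls V u) := by
    intro p hp
    obtain ⟨hpp, hp0, h12, ⟨k, _, _, hcard, φ, hφ⟩, hL1, hL2⟩ := hT p hp
    haveI : Fact p.Prime := ⟨hpp⟩
    haveI : CharP k p := charP_of_card hpp hcard
    obtain ⟨F, _, _, _, φF, hφF, hcomp, hcF, hcFk⟩ := exists_F hpp hcard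
      (φ.comp (algebraMap (𝓞 K) (𝓞 L)))
    haveI : CharP F p := charP_of_card hpp hcF
    obtain ⟨V', u', hVu⟩ := hcls p hpp (by omega) h12 hL1 hL2 k hcard φ hφ
    have hG0 : ∀ x : Q, ∃ G0 : Set ((Σ j, ι j) × Fin N → ZMod p),
        (((G0).ncard : ℕ) : ℝ) ≤ (1 - δ) * (p : ℝ) ^ Fintype.card ((Σ j, ι j) × Fin N) ∧
        (OnG a b (V' x) (u' x) → ∀ c : (Σ j, ι j) × Fin N → ℤ,
          (fun i => φF (∑ j, c (i, j) • ω j)) ∈ BadAt φF G Φ Λ (V' x) (u' x) →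
          (fun s => (c s : ZMod p)) ∈ G0) := by
      intro x
      by_cases hx : OnG a b (V' x) (u' x)
      · have h5 := hloc κ hκ r s m q a b F k hcFk (𝓞 K) φF G dG fG hdG hfG Φ ι Λ d e hdΦ heΦ hdΛ
          heΛ (fun V u hV => hfib p hpp (by omega) k ((algebraMap F k).comp φF) V u hV)
          (fun V u hV => hfib p hpp (by omega) F φF V u hV)
          (fun j => hp₂ j p hpp (by
            have := Finset.single_le_sum (f := p₂) (fun _ _ => Nat.zero_le _) (Finset.mem_univ j)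
            omega) k ((algebraMap F k).comp φF)) (by
            rcases hp₃ with h | h
            · left
              apply le_antisymm
              · apply Fintype.card_le_of_surjective (algebraMap F k)
                intro y
                obtain ⟨x', hx'⟩ := hφ y
                obtain ⟨x'', rfl⟩ := surj_ringOfIntegers h x'
                refine ⟨φF x'', ?_⟩
                rw [← hx']
                exact congrArg (fun f : 𝓞 K →+* k => f x'') hcomp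
              · exact Fintype.card_le_of_injective _ (algebraMap F k).injective
            · exact Or.inr fun j => h j p hpp (by omega) k ((algebraMap F k).comp φF))
          (V' x) (u' x) hx
        obtain ⟨G0, hG1, hG2⟩ := CI.preI K (Σ j, ι j) N ω p F hcF φF hφF
          (BadAt φF G Φ Λ (V' x) (u' x)) (1 - δ) h5
        exact ⟨G0, hG1, fun _ => hG2⟩
      · refine ⟨∅, ?_, fun h => absurd h hx⟩
        rw [Set.ncard_empty, Nat.cast_zero]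
        have : 0 ≤ 1 - δ := by linarith
        positivity
    choose G0 hG1 hG2 using hG0
    refine ⟨G0, hG1, ?_⟩
    intro V u T c hV hu hTF hc
    obtain ⟨hO, v, z, hv, hz, hval⟩ := hVu V u hV hu
    exact hG2 _ hO c (reduce φ φF hcomp G dG fG hdG hfG Φ Λ d e hdΦ heΦ hdΛ heΛ v z V _ _ _ hval T
      hTF (fun i => ∑ j, c (i, j) • ω j) hc)
  choose G0 hG1 hG2 using key
  let G1 : Q → (p : ℕ) → Set ((Σ j, ι j) × Fin N → ZMod p) := fun x p =>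
    {c | ∃ hp : p ∈ T, c ∈ G0 p hp x}
  have hGeq : ∀ x (p : ℕ) (hp : p ∈ T), G1 x p = G0 p hp x := by
    intro x p hp
    ext c
    exact ⟨fun ⟨_, h⟩ => h, fun h => ⟨hp, h⟩⟩
  have hB : ∀ x, (({c : (Σ j, ι j) × Fin N → ℤ | c ∈ Box ((Σ j, ι j) × Fin N) H ∧
      ∀ p ∈ T, (fun s => (c s : ZMod p)) ∈ G1 x p}.ncard : ℕ) : ℝ) ≤
      (2 * (2 * (H : ℝ) + 1)) ^ Fintype.card ((Σ j, ι j) × Fin N) * (1 - δ) ^ T.card := fun x =>
    t_BOX ((Σ j, ι j) × Fin N) T hTp (G1 x) (1 - δ) (by linarith) (by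
      intro p hp
      rw [hGeq x p hp]
      exact hG1 p hp x) H hH
  have hsub : Bad ω a b Γ G Φ Λ H ⊆ ⋃ x ∈ (Finset.univ : Finset Q),
      {c : (Σ j, ι j) × Fin N → ℤ | c ∈ Box ((Σ j, ι j) × Fin N) H ∧
        ∀ p ∈ T, (fun s => (c s : ZMod p)) ∈ G1 x p} := by
    rintro c ⟨hc1, V, u, T₀, hV, hu, hTF, hw⟩
    rw [Set.mem_iUnion₂]
    refine ⟨cls V u, Finset.mem_univ _, ?_, ?_⟩
    · unfold Box
      rw [Fintype.mem_piFinset]
      intro s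
      rw [Finset.mem_Icc]
      exact abs_le.1 (hc1 s)
    intro p hp
    rw [hGeq _ p hp]
    exact hG2 p hp V u T₀ c hV hu hTF hw
  have hfin : (⋃ x ∈ (Finset.univ : Finset Q),
      {c : (Σ j, ι j) × Fin N → ℤ | c ∈ Box ((Σ j, ι j) × Fin N) H ∧
        ∀ p ∈ T, (fun s => (c s : ZMod p)) ∈ G1 x p}).Finite := by
    apply Set.Finite.subset (Box ((Σ j, ι j) × Fin N) H).finite_toSet
    intro c hc
    rw [Set.mem_iUnion₂] at hc
    obtain ⟨_, _, hc, _⟩ := hc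
    exact hc
  have hcard : (((Finset.univ : Finset Q).card : ℕ) : ℝ) ≤ (M : ℝ) ^ R := by
    rw [Finset.card_univ]
    exact_mod_cast hQ
  have h1δ : 0 ≤ 1 - δ := by linarith
  set s₀ := Fintype.card ((Σ j, ι j) × Fin N) with hs₀
  calc (((Bad ω a b Γ G Φ Λ H).ncard : ℕ) : ℝ)
      ≤ (((⋃ x ∈ (Finset.univ : Finset Q), {c : (Σ j, ι j) × Fin N → ℤ |
          c ∈ Box ((Σ j, ι j) × Fin N) H ∧
          ∀ p ∈ T, (fun s => (c s : ZMod p)) ∈ G1 x p}).ncard : ℕ) : ℝ) := by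
        exact_mod_cast Set.ncard_le_ncard hsub hfin
    _ ≤ ((∑ x ∈ (Finset.univ : Finset Q), {c : (Σ j, ι j) × Fin N → ℤ |
          c ∈ Box ((Σ j, ι j) × Fin N) H ∧
          ∀ p ∈ T, (fun s => (c s : ZMod p)) ∈ G1 x p}.ncard : ℕ) : ℝ) := by
        exact_mod_cast Finset.set_ncard_biUnion_le _ _
    _ = ∑ x ∈ (Finset.univ : Finset Q), (({c : (Σ j, ι j) × Fin N → ℤ |
          c ∈ Box ((Σ j, ι j) × Fin N) H ∧
          ∀ p ∈ T, (fun s => (c s : ZMod p)) ∈ G1 x p}.ncard : ℕ) : ℝ) := by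
        push_cast
        rfl
    _ ≤ ∑ x ∈ (Finset.univ : Finset Q), (2 * (2 * (H : ℝ) + 1)) ^ s₀ *
          (1 - δ) ^ T.card := Finset.sum_le_sum fun x _ => hB x
    _ = (((Finset.univ : Finset Q).card : ℕ) : ℝ) * ((2 * (2 * (H : ℝ) + 1)) ^ s₀ *
          (1 - δ) ^ T.card) := by rw [Finset.sum_const, nsmul_eq_mul]
    _ ≤ (M : ℝ) ^ R * ((2 * (2 * (H : ℝ) + 1)) ^ s₀ *
          (1 - δ) ^ T.card) := mul_le_mul_of_nonneg_right hcard (by positivity)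
    _ = (2 * (2 * (H : ℝ) + 1)) ^ s₀ * ((M : ℝ) ^ R *
          (1 - δ) ^ T.card) := by ring

end Pool.Agent.N89.GS
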