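import Pool.Agent.N89.GS.Uni
import Pool.Agent.N891.GS.Elim
import Pool.Agent.N591.GS.CNT
import Pool.Agent.N457.GS.TSF
import Pool.Agent.N813.GS.MON
import Pool.Agent.N637.GS.BON
import Pool.Agent.N712.GS.LIN
import Pool.Agent.N169.GS.TSW

/-! Project GS (helper89): everything put together. -/

set_option autoImplicit false

namespace Pool.Agent.N89.GS

open MvPolynomial NumberField Pool.Agent.H901R3.MS Pool.Agent.W659 Pool.Agent.W659.SA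

theorem t_TRZ : S_TRZ := Pool.Agent.W440.SA.TRZ.main Pool.Agent.W578.SA.TRK.main

theorem t_FIB : S_FIB := fib Pool.Agent.N891.GS.main Pool.Agent.N591.GS.CNT.main t_TRZ

theorem finGS' (hLIN : S_LIN) (hLIN1 : S_LIN1) (hTSW : S_TSW)
    (K : Type) [Field K] [NumberField K] (N : ℕ) (ω : Module.Basis (Fin N) ℤ (𝓞 K))
    (r s m q κ : ℕ) (hκ : 1 ≤ κ) (a b : Fin r → ℤ)
    (hab : ∀ i, a i * b i = 0 ∧ (a i ≠ 0 ∨ b i ≠ 0))
    (G : Fin q → Pol (𝓞 K) r s m) (dG : Fin q → Fin r → ℕ) (fG : Fin q → ℕ)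
    (hdG : ∀ l, MHomog (G l) (dG l)) (hfG : ∀ l, THomog (G l) (fG l)) (σ : K →+* ℂ)
    (hdim : DimLE σ a b G κ) :
    ∃ k₀ : ℕ,
      (∀ (Φ : Fin κ → Pol (𝓞 K) r s m) (ι : Fin κ → Type) [∀ j, Fintype (ι j)]
        (Λ : (j : Fin κ) → ι j → Pol (𝓞 K) r s m) (d : Fin κ → Fin r → ℕ) (e : Fin κ → ℕ),
        (∀ j, MHomog (Φ j) (d j)) → (∀ j, THomog (Φ j) (e j)) → (∀ j x, MHomog (Λ j x) (d j)) →
        (∀ j x, THomog (Λ j x) (e j)) → (∀ j, SepFib (toC σ) a b G (Λ j) k₀) →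
        (∀ (L : Type) [Field L] [NumberField L] [Algebra K L],
          (Function.Surjective (algebraMap K L) ∨ ∀ j, SepTwo (toC σ) a b G (Λ j) k₀) →
          ∀ Γ : Subgroup Lˣ, Γ.FG → ∃ c₀ : ℝ, 0 < c₀ ∧ ∃ H₀ : ℕ, ∀ H : ℕ, H₀ ≤ H →
            (({c : (Σ j, ι j) × Fin N → ℤ | (∀ i, |c i| ≤ (H : ℤ)) ∧
              c ∈ BadAll ω a b Γ G Φ Λ}.ncard : ℕ) : ℝ) ≤
              (2 * (H : ℝ) + 1) ^ (Fintype.card (Σ j, ι j) * N) *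
                Real.exp (-c₀ * (Real.log H / Real.log (Real.log H)))) ∧
        ∃ E : Set ((Σ j, ι j) × Fin N → ℤ),
          (∃ H₀ : ℕ, ∀ H : ℕ, H₀ ≤ H →
            (({c : (Σ j, ι j) × Fin N → ℤ | (∀ i, |c i| ≤ (H : ℤ)) ∧ c ∈ E}.ncard : ℕ) : ℝ) ≤
              (2 * (H : ℝ) + 1) ^ (Fintype.card (Σ j, ι j) * N) *
                Real.exp (-(Real.log H / Real.log (Real.log H) ^ 2))) ∧
          ∀ (L : Type) [Field L] [NumberField L] [Algebra K L],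
            (Function.Surjective (algebraMap K L) ∨ ∀ j, SepTwo (toC σ) a b G (Λ j) k₀) →
            ∀ Γ : Subgroup Lˣ, Γ.FG → (BadAll ω a b Γ G Φ Λ \ E).Finite) ∧
      ∀ (ι : Type) (Λ : ι → Pol (𝓞 K) r s m) (d : Fin r → ℕ) (e : ℕ) (x₀ : Fin s → ℕ),
        k₀ ≤ e + 1 →
        (∀ (μ : Fin r → Fin 3 → ℕ) (α : Fin m → ℕ), (∀ i, ∑ j, μ i j = d i) → ∑ i, α i = e →
          ∃ y, Λ y = mon μ x₀ α) →
        SepFib (toC σ) a b G Λ k₀ ∧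
        ((∀ i, 1 ≤ d i) → (∀ (μ : Fin r → Fin 3 → ℕ) (α : Fin m → ℕ) (l : Fin s),
          (∀ i, ∑ j, μ i j = d i) → ∑ i, α i = e →
            ∃ y, Λ y = mon μ (Function.update x₀ l (x₀ l + 1)) α) →
              SepTwo (toC σ) a b G Λ k₀) := by
  obtain ⟨k₀, δ, hδ0, hδ1, hS⟩ := sieveGS Pool.Agent.N637.GS.BON.main hLIN hLIN1 t_FIB
    Pool.Agent.N457.GS.TSF.main hTSW K r s m q κ hκ a b hab G dG fG hdG hfG σ hdim
  have hM := mainGS K κ a b G σ k₀ δ hδ0 hδ1 hS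
  refine ⟨k₀, ?_, fun ι Λ d e x₀ he h => Pool.Agent.N813.GS.main (𝓞 K) ℂ (toC σ) r s m q a b G ι Λ
    k₀ d e x₀ he h⟩
  intro Φ ι _ Λ d e hdΦ heΦ hdΛ heΛ hsf
  refine ⟨?_, uniGS K a b G σ k₀ hM Φ ι Λ d e hdΦ heΦ hdΛ heΛ hsf N ω⟩
  intro L _ _ _ hL Γ hΓ
  exact hM Φ ι Λ d e hdΦ heΦ hdΛ heΛ hsf L hL Γ hΓ N ω

/-- the theorem -/
theorem finGS : type_of% (finGS' Pool.Agent.N712.GS.mainLIN Pool.Agent.N712.GS.mainLIN1
    Pool.Agent.N169.GS.TSW.main) :=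
  finGS' Pool.Agent.N712.GS.mainLIN Pool.Agent.N712.GS.mainLIN1 Pool.Agent.N169.GS.TSW.main

end Pool.Agent.N89.GS
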