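import Pool.Agent.N89.GS.Local
import Pool.Agent.N89.CI.MainK

/-! Project GS (helper89): the sieve inequality with given primes. -/

set_option autoImplicit false

namespace Pool.Agent.N89.GS

open MvPolynomial NumberField Pool.Agent.H901R3.MS Pool.Agent.W659 Pool.Agent.W659.SA

/-! ### the residue field below -/

theorem exists_F {k : Type} [Field k] [Fintype k] {p : ℕ} (hp : p.Prime)
    (hk : Fintype.card k = p ∨ Fintype.card k = p ^ 2) {R : Type} [CommRing R] (ρ : R →+* k) :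
    ∃ (F : Type) (_ : Field F) (_ : Fintype F) (_ : Algebra F k) (φ : R →+* F),
      Function.Surjective φ ∧ (algebraMap F k).comp φ = ρ ∧
      (Fintype.card F = p ∨ Fintype.card F = p ^ 2) ∧
      (Fintype.card k = Fintype.card F ∨ Fintype.card k = Fintype.card F ^ 2) := by
  classical
  have h2 : 2 ≤ Fintype.card k := Fintype.one_lt_card
  let S : Subfield k :=
    { ρ.range with
      inv_mem' := by
        rintro x ⟨y, rfl⟩
        by_cases h0 : ρ y = 0
        · rw [h0, inv_zero]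
          exact ⟨0, map_zero ρ⟩
        · refine ⟨y ^ (Fintype.card k - 2), ?_⟩
          rw [map_pow]
          apply eq_inv_of_mul_eq_one_left
          rw [← pow_succ, show Fintype.card k - 2 + 1 = Fintype.card k - 1 by omega]
          exact FiniteField.pow_card_sub_one_eq_one _ h0 }
  let φ : R →+* S := ρ.codRestrict S (fun y => ⟨y, rfl⟩)
  have hpow : Fintype.card k = Fintype.card S ^ Module.finrank S k :=
    Module.card_eq_pow_finrank (K := S) (V := k)
  have hS2 : 2 ≤ Fintype.card S := Fintype.one_lt_card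
  have hfr : 0 < Module.finrank S k := Module.finrank_pos
  refine ⟨S, inferInstance, inferInstance, inferInstance, φ, ?_, ?_, ?_⟩
  · rintro ⟨x, y, hy⟩
    exact ⟨y, Subtype.ext hy⟩
  · ext x
    rfl
  · rcases hk with hk | hk
    · have h3 : Fintype.card S = p := by
        have h4 : Fintype.card S ∣ p := by
          rw [← hk, hpow]
          exact dvd_pow_self _ hfr.ne'
        rcases (Nat.dvd_prime hp).1 h4 with h | h
        · omega
        · exact h
      exact ⟨Or.inl h3, Or.inl (hk.trans h3.symm)⟩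
    · have h4 : Fintype.card S ∣ p ^ 2 := by
        rw [← hk, hpow]
        exact dvd_pow_self _ hfr.ne'
      obtain ⟨i, hi, hi2⟩ := (Nat.dvd_prime_pow hp).1 h4
      interval_cases i
      · rw [pow_zero] at hi2
        omega
      · rw [pow_one] at hi2
        exact ⟨Or.inl hi2, Or.inr (by rw [hk, hi2])⟩
      · exact ⟨Or.inr hi2, Or.inl (by rw [hk, hi2])⟩

/-! ### values of combinations -/

theorem vl_add {O A : Type} [CommRing O] [CommRing A] (φ : O →+* A) {r s m : ℕ} (P Q : Pol O r s m)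
    (V : Fin r → Fin 3 → A) (u : Fin s → A) (T : Fin m → A) :
    vl φ (P + Q) V u T = vl φ P V u T + vl φ Q V u T := by
  unfold vl
  exact eval₂_add _ _

theorem vl_C_mul {O A : Type} [CommRing O] [CommRing A] (φ : O →+* A) {r s m : ℕ} (c : O)
    (P : Pol O r s m) (V : Fin r → Fin 3 → A) (u : Fin s → A) (T : Fin m → A) :
    vl φ (C c * P) V u T = φ c * vl φ P V u T := by
  unfold vl
  rw [eval₂_mul, eval₂_C]

theorem vl_sum {O A : Type} [CommRing O] [CommRing A] (φ : O →+* A) {r s m : ℕ} {ι : Type}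
    (S : Finset ι) (P : ι → Pol O r s m) (V : Fin r → Fin 3 → A) (u : Fin s → A) (T : Fin m → A) :
    vl φ (∑ i ∈ S, P i) V u T = ∑ i ∈ S, vl φ (P i) V u T := by
  unfold vl
  exact eval₂_sum _ _ _ _

theorem vl_mapR {O O' A : Type} [CommRing O] [CommRing O'] [CommRing A] (f : O →+* O')
    (φ : O' →+* A) {r s m : ℕ} (P : Pol O r s m) (V : Fin r → Fin 3 → A) (u : Fin s → A)
    (T : Fin m → A) : vl φ (map f P) V u T = vl (φ.comp f) P V u T := by
  unfold vl
  exact eval₂_map _ _ _ _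

theorem mhomog_add {O : Type} [CommRing O] {r s m : ℕ} {P Q : Pol O r s m} {d : Fin r → ℕ}
    (hP : MHomog P d) (hQ : MHomog Q d) : MHomog (P + Q) d := by
  classical
  intro μ hμ
  have h := support_add hμ
  rw [Finset.mem_union] at h
  rcases h with h | h
  · exact hP μ h
  · exact hQ μ h

theorem mhomog_C_mul {O : Type} [CommRing O] {r s m : ℕ} {P : Pol O r s m} {d : Fin r → ℕ}
    (hP : MHomog P d) (c : O) : MHomog (C c * P) d := by
  intro μ hμ
  apply hP μ
  rw [mem_support_iff] at hμ ⊢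
  intro h
  apply hμ
  rw [coeff_C_mul, h, mul_zero]

theorem mhomog_sum {O : Type} [CommRing O] {r s m : ℕ} {ι : Type} (S : Finset ι)
    {P : ι → Pol O r s m} {d : Fin r → ℕ} (hP : ∀ i, MHomog (P i) d) :
    MHomog (∑ i ∈ S, P i) d := by
  classical
  induction S using Finset.induction_on with
  | empty =>
    intro μ hμ
    simp at hμ
  | insert i S hi ih =>
    rw [Finset.sum_insert hi]
    exact mhomog_add (hP i) ih

theorem mhomog_mapR {O O' : Type} [CommRing O] [CommRing O'] (f : O →+* O') {r s m : ℕ}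
    {P : Pol O r s m} {d : Fin r → ℕ} (hP : MHomog P d) : MHomog (map f P) d := fun μ hμ =>
  hP μ (support_map_subset f P hμ)

/-! ### the sieve -/

/-- the canonical map from the ring of integers of `K` to `L` -/
noncomputable def toL (K L : Type) [Field K] [Field L] [Algebra K L] : 𝓞 K →+* L :=
  (algebraMap K L).comp (algebraMap (𝓞 K) K)

/-- the coefficient vectors `c` of the members `Φ j + ∑ x, c_(j,x) Λ j x` in a box, such that the
complete intersection in `𝒯` has a point over `L` with torus coordinates in `Γ` -/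
def Bad {K L : Type} [Field K] [NumberField K] [Field L] [Algebra K L] {N κ r s m q : ℕ}
    (ω : Module.Basis (Fin N) ℤ (𝓞 K)) (a b : Fin r → ℤ) (Γ : Subgroup Lˣ)
    (G : Fin q → Pol (𝓞 K) r s m) (Φ : Fin κ → Pol (𝓞 K) r s m) {ι : Fin κ → Type}
    [∀ j, Fintype (ι j)] (Λ : (j : Fin κ) → ι j → Pol (𝓞 K) r s m) (H : ℕ) :
    Set ((Σ j, ι j) × Fin N → ℤ) :=
  {c | (∀ i, |c i| ≤ H) ∧ ∃ (V : Fin r → Fin 3 → L) (u : Fin s → Lˣ) (T : Fin m → L),
    (∀ i, FD.OnE (a i) (b i) (V i)) ∧ (∀ l, u l ∈ Γ) ∧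
    OnF (toL K L) G V (fun l => ((u l : Lˣ) : L)) T ∧
    ∀ j, vl (toL K L) (Φ j) V (fun l => ((u l : Lˣ) : L)) T +
      ∑ x, toL K L (∑ i, c (⟨j, x⟩, i) • ω i) *
        vl (toL K L) (Λ j x) V (fun l => ((u l : Lˣ) : L)) T = 0}

/-- reduction of a point -/
theorem reduce {K L k F : Type} [Field K] [NumberField K] [Field L] [NumberField L] [Algebra K L]
    [Field k] [Field F] [Algebra F k] (φ : 𝓞 L →+* k) (φF : 𝓞 K →+* F)
    (hφF : (algebraMap F k).comp φF = φ.comp (algebraMap (𝓞 K) (𝓞 L)))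
    {r s m q κ : ℕ} (G : Fin q → Pol (𝓞 K) r s m) (dG : Fin q → Fin r → ℕ) (fG : Fin q → ℕ)
    (hdG : ∀ e, MHomog (G e) (dG e)) (hfG : ∀ e, THomog (G e) (fG e))
    (Φ : Fin κ → Pol (𝓞 K) r s m) {ι : Fin κ → Type} [∀ j, Fintype (ι j)]
    (Λ : (j : Fin κ) → ι j → Pol (𝓞 K) r s m) (d : Fin κ → Fin r → ℕ) (e : Fin κ → ℕ)
    (hdΦ : ∀ j, MHomog (Φ j) (d j)) (heΦ : ∀ j, THomog (Φ j) (e j))
    (hdΛ : ∀ j x, MHomog (Λ j x) (d j)) (heΛ : ∀ j x, THomog (Λ j x) (e j))
    (v : Place L k) (z : Fin r → L) (V : Fin r → Fin 3 → L) (u : Fin s → L)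
    (V' : Fin r → Fin 3 → k) (u' : Fin s → k)
    (hval : ∀ (n : ℕ) (F : Pol (𝓞 L) r s n) (d : Fin r → ℕ), MHomog F d →
      ∀ t : Fin n → L, (∀ i, t i ∈ v.A) →
        (∏ i, z i ^ d i) * vl (algebraMap (𝓞 L) L) F V u t ∈ v.A ∧
        v.r ((∏ i, z i ^ d i) * vl (algebraMap (𝓞 L) L) F V u t) =
          vl φ F V' u' (fun i => v.r (t i)))
    (T : Fin m → L) (hT : OnF (toL K L) G V u T) (c : (Σ j, ι j) → 𝓞 K)
    (hc : ∀ j, vl (toL K L) (Φ j) V u T +
      ∑ x, toL K L (c ⟨j, x⟩) * vl (toL K L) (Λ j x) V u T = 0) :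
    (fun i => φF (c i)) ∈ BadAt φF G Φ Λ V' u' := by
  have htoL : (algebraMap (𝓞 L) L).comp (algebraMap (𝓞 K) (𝓞 L)) = toL K L := by
    ext x
    rfl
  obtain ⟨i₀, hi₀, hprim⟩ := CI.exists_primitive v T hT.1
  set T₁ : Fin m → L := fun i => (T i₀)⁻¹ * T i with hT₁
  set T' : Fin m → k := fun i => v.r (T₁ i) with hT'
  have hT'0 : T' ≠ 0 := by
    intro h
    have h1 := congrFun h i₀
    simp only [hT', hT₁, inv_mul_cancel₀ hi₀, Place.r_one, Pi.zero_apply] at h1
    exact one_ne_zero h1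
  have hG1 : ∀ l, vl (toL K L) (G l) V u T₁ = 0 := by
    intro l
    rw [hT₁, vl_scaleT' _ (G l) (fG l) (hfG l), hT.2 l, mul_zero]
  have hc1 : ∀ j, vl (toL K L) (Φ j) V u T₁ +
      ∑ x, toL K L (c ⟨j, x⟩) * vl (toL K L) (Λ j x) V u T₁ = 0 := by
    intro j
    rw [hT₁, vl_scaleT' _ (Φ j) (e j) (heΦ j)]
    have h2 : ∀ x, toL K L (c ⟨j, x⟩) * vl (toL K L) (Λ j x) V u (fun i => (T i₀)⁻¹ * T i) =
        (T i₀)⁻¹ ^ e j * (toL K L (c ⟨j, x⟩) * vl (toL K L) (Λ j x) V u T) := by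
      intro x
      rw [vl_scaleT' _ (Λ j x) (e j) (heΛ j x)]
      ring
    simp only [h2]
    rw [← Finset.mul_sum, ← mul_add, hc j, mul_zero]
  have key : ∀ (P : Pol (𝓞 L) r s m) (d : Fin r → ℕ), MHomog P d →
      vl (algebraMap (𝓞 L) L) P V u T₁ = 0 → vl φ P V' u' T' = 0 := by
    intro P d hP h0
    have h1 := (hval m P d hP T₁ hprim).2
    rw [h0, mul_zero, Place.r_zero] at h1
    exact h1.symm
  refine ⟨T', ⟨hT'0, fun l => ?_⟩, fun j => ?_⟩
  · have h1 := key (map (algebraMap (𝓞 K) (𝓞 L)) (G l)) (dG l) (mhomog_mapR _ (hdG l)) (by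
      rw [vl_mapR, htoL]
      exact hG1 l)
    rw [vl_mapR, ← hφF] at h1
    exact h1
  · have h1 := key (map (algebraMap (𝓞 K) (𝓞 L)) (Φ j) +
      ∑ x, C (algebraMap (𝓞 K) (𝓞 L) (c ⟨j, x⟩)) * map (algebraMap (𝓞 K) (𝓞 L)) (Λ j x)) (d j)
      (mhomog_add (mhomog_mapR _ (hdΦ j))
        (mhomog_sum _ (fun x => mhomog_C_mul (mhomog_mapR _ (hdΛ j x)) _))) (by
      rw [vl_add, vl_sum, vl_mapR, htoL]
      simp only [vl_C_mul, vl_mapR, htoL]
      exact hc1 j)
    rw [vl_add, vl_sum, vl_mapR, ← hφF] at h1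
    simp only [vl_C_mul, vl_mapR, ← hφF] at h1
    rw [← h1]
    congr 1
    refine Finset.sum_congr rfl fun x _ => ?_
    congr 1
    exact congrArg (fun f : 𝓞 K →+* k => f (c ⟨j, x⟩)) hφF

end Pool.Agent.N89.GS
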