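import Pool.Agent.N89.GS.Dens

/-! Project GS (helper89): density of the members with a point over a given point of `G` modulo a
prime, second part. -/

set_option autoImplicit false

namespace Pool.Agent.N89.GS

open MvPolynomial NumberField Pool.Agent.W659 Pool.Agent.W659.SA

theorem onE_scale {k : Type} [Field k] {a b : ℤ} {V : Fin 3 → k} (h : FD.OnE a b V) {c : k}
    (hc : c ≠ 0) : FD.OnE a b (fun j => c * V j) := by
  obtain ⟨h1, h2⟩ := h
  refine ⟨fun h0 => h1 ?_, ?_⟩
  · funext j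
    have h3 := congrFun h0 j
    exact (mul_eq_zero.1 h3).resolve_left hc
  · linear_combination c ^ 3 * h2

theorem onE_map {k k' : Type} [Field k] [Field k'] (σ : k →+* k') {a b : ℤ} {V : Fin 3 → k}
    (h : FD.OnE a b V) : FD.OnE a b (fun j => σ (V j)) := by
  obtain ⟨h1, h2⟩ := h
  refine ⟨fun h0 => h1 ?_, ?_⟩
  · funext j
    exact σ.injective ((congrFun h0 j).trans (map_zero σ).symm)
  · have h3 := congrArg σ h2
    simpa only [map_mul, map_pow, map_add, map_intCast] using h3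

theorem onE_of_map {k k' : Type} [Field k] [Field k'] (σ : k →+* k') {a b : ℤ} {V : Fin 3 → k}
    (h : FD.OnE a b (fun j => σ (V j))) : FD.OnE a b V := by
  obtain ⟨h1, h2⟩ := h
  refine ⟨fun h0 => h1 ?_, ?_⟩
  · funext j
    rw [h0, Pi.zero_apply, map_zero]
    rfl
  · apply σ.injective
    simpa only [map_mul, map_pow, map_add, map_intCast] using h2

theorem mem_of_pow {F k : Type} [Field F] [Fintype F] [Field k] [Algebra F k] {x : k}
    (hx : x ^ Fintype.card F = x) : ∃ z : F, algebraMap F k z = x := by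
  classical
  set S : Finset k := Finset.univ.image (algebraMap F k) with hS
  have hSc : S.card = Fintype.card F := by
    rw [hS, Finset.card_image_of_injective _ (algebraMap F k).injective, Finset.card_univ]
  have h2 : 1 < Fintype.card F := Fintype.one_lt_card
  set P : Polynomial k := Polynomial.X ^ Fintype.card F - Polynomial.X with hP
  have hP0 : P ≠ 0 := FiniteField.X_pow_card_sub_X_ne_zero k h2
  have hPd : P.natDegree = Fintype.card F := FiniteField.X_pow_card_sub_X_natDegree_eq k h2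
  have hsub : S ⊆ P.roots.toFinset := by
    intro y hy
    rw [hS, Finset.mem_image] at hy
    obtain ⟨z, _, rfl⟩ := hy
    rw [Multiset.mem_toFinset, Polynomial.mem_roots hP0, Polynomial.IsRoot.def]
    simp only [hP, Polynomial.eval_sub, Polynomial.eval_pow, Polynomial.eval_X]
    rw [← map_pow, FiniteField.pow_card, sub_self]
  have hle : P.roots.toFinset.card ≤ S.card := by
    rw [hSc, ← hPd]
    exact (Multiset.toFinset_card_le _).trans (Polynomial.card_roots' P)
  have heq := Finset.eq_of_subset_of_card_le hsub hle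
  have hxS : x ∈ S := by
    rw [heq, Multiset.mem_toFinset, Polynomial.mem_roots hP0, Polynomial.IsRoot.def]
    simp only [hP, Polynomial.eval_sub, Polynomial.eval_pow, Polynomial.eval_X]
    rw [hx, sub_self]
  rw [hS, Finset.mem_image] at hxS
  obtain ⟨z, _, hz⟩ := hxS
  exact ⟨z, hz⟩

/-- the members which have a point over `(V, u)` -/
def BadAt {O F k : Type} [CommRing O] [Field F] [Field k] [Algebra F k] (φ : O →+* F)
    {r s m q κ : ℕ} (G : Fin q → Pol O r s m) (Φ : Fin κ → Pol O r s m) {ι : Fin κ → Type}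
    [∀ j, Fintype (ι j)] (Λ : (j : Fin κ) → ι j → Pol O r s m) (V : Fin r → Fin 3 → k)
    (u : Fin s → k) : Set ((Σ j, ι j) → F) :=
  {c | ∃ T, OnF ((algebraMap F k).comp φ) G V u T ∧ ∀ j, vl ((algebraMap F k).comp φ) (Φ j) V u T +
    ∑ x, algebraMap F k (c ⟨j, x⟩) * vl ((algebraMap F k).comp φ) (Λ j x) V u T = 0}

theorem badAt_scale {O F k : Type} [CommRing O] [Field F] [Field k] [Algebra F k] (φ : O →+* F)
    {r s m q κ : ℕ} (G : Fin q → Pol O r s m) (Φ : Fin κ → Pol O r s m) {ι : Fin κ → Type}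
    [∀ j, Fintype (ι j)] (Λ : (j : Fin κ) → ι j → Pol O r s m) (dG : Fin q → Fin r → ℕ)
    (hdG : ∀ e, MHomog (G e) (dG e)) (d : Fin κ → Fin r → ℕ) (hdΦ : ∀ j, MHomog (Φ j) (d j))
    (hdΛ : ∀ j x, MHomog (Λ j x) (d j)) (V : Fin r → Fin 3 → k)
    (u : Fin s → k) (c : Fin r → k) (hc : ∀ i, c i ≠ 0) :
    BadAt φ G Φ Λ (fun i j => c i * V i j) u = BadAt φ G Φ Λ V u := by
  have h1 : ∀ d : Fin r → ℕ, (∏ i, c i ^ d i) ≠ 0 := fun d =>
    Finset.prod_ne_zero_iff.2 fun i _ => pow_ne_zero _ (hc i)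
  ext t
  unfold BadAt OnF
  simp only [Set.mem_ofPred_eq]
  refine exists_congr fun T => and_congr (and_congr_right fun _ => forall_congr' fun e => ?_)
    (forall_congr' fun j => ?_)
  · rw [vl_scale _ (G e) (dG e) (hdG e)]
    exact mul_eq_zero_iff_left (h1 _)
  · rw [vl_scale _ (Φ j) (d j) (hdΦ j)]
    have h2 : ∀ x, algebraMap F k (t ⟨j, x⟩) * vl ((algebraMap F k).comp φ) (Λ j x)
        (fun i j => c i * V i j) u T = (∏ i, c i ^ d j i) *
          (algebraMap F k (t ⟨j, x⟩) * vl ((algebraMap F k).comp φ) (Λ j x) V u T) := by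
      intro x
      rw [vl_scale _ (Λ j x) (d j) (hdΛ j x)]
      ring
    simp only [h2]
    rw [← Finset.mul_sum, ← mul_add]
    exact mul_eq_zero_iff_left (h1 _)

/-- it suffices to consider normalised points -/
theorem badAt_sub {O F k : Type} [CommRing O] [Field F] [Field k] [Algebra F k] (φ : O →+* F)
    {r s m q κ : ℕ} (G : Fin q → Pol O r s m) (Φ : Fin κ → Pol O r s m) {ι : Fin κ → Type}
    [∀ j, Fintype (ι j)] (Λ : (j : Fin κ) → ι j → Pol O r s m) (fG : Fin q → ℕ)
    (hfG : ∀ e, THomog (G e) (fG e)) (e : Fin κ → ℕ) (heΦ : ∀ j, THomog (Φ j) (e j))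
    (heΛ : ∀ j x, THomog (Λ j x) (e j)) (V : Fin r → Fin 3 → k)
    (u : Fin s → k) {c : (Σ j, ι j) → F} (hc : c ∈ BadAt φ G Φ Λ V u) :
    ∃ T, (Nrm T ∧ ∀ e, vl ((algebraMap F k).comp φ) (G e) V u T = 0) ∧
      ∀ j, ∑ x, algebraMap F k (c ⟨j, x⟩) * vl ((algebraMap F k).comp φ) (Λ j x) V u T =
        -vl ((algebraMap F k).comp φ) (Φ j) V u T := by
  obtain ⟨T, ⟨hT0, hT⟩, h⟩ := hc
  obtain ⟨z, hz, hN⟩ := exists_nrm T hT0
  refine ⟨fun i => z * T i, ⟨hN, fun l => ?_⟩, fun j => ?_⟩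
  · rw [vl_scaleT' _ (G l) (fG l) (hfG l), hT l, mul_zero]
  · rw [vl_scaleT' _ (Φ j) (e j) (heΦ j)]
    have h2 : ∀ x, algebraMap F k (c ⟨j, x⟩) * vl ((algebraMap F k).comp φ) (Λ j x)
        V u (fun i => z * T i) = z ^ e j *
          (algebraMap F k (c ⟨j, x⟩) * vl ((algebraMap F k).comp φ) (Λ j x) V u T) := by
      intro x
      rw [vl_scaleT' _ (Λ j x) (e j) (heΛ j x)]
      ring
    simp only [h2]
    rw [← Finset.mul_sum]
    linear_combination z ^ e j * h j

end Pool.Agent.N89.GS
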