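import Pool.Agent.N89.GS.Cls
import Pool.Agent.N89.GS.Stm

/-! Project GS (helper89): density of the members with a point over a given point of `G` modulo a
prime. -/

set_option autoImplicit false

namespace Pool.Agent.N89.GS

open MvPolynomial NumberField Pool.Agent.W659 Pool.Agent.W659.SA

/-! ### scaling and normalised vectors -/

theorem vl_scaleT' {O A : Type} [CommRing O] [CommRing A] (φ : O →+* A) {r s m : ℕ}
    (F : Pol O r s m) (e : ℕ) (hF : THomog F e) (V : Fin r → Fin 3 → A) (u : Fin s → A)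
    (T : Fin m → A) (c : A) : vl φ F V u (fun i => c * T i) = c ^ e * vl φ F V u T := by
  rw [vl_expand, vl_expand, Finset.mul_sum]
  refine Finset.sum_congr rfl fun μ hμ => ?_
  have h1 : ∏ k, (c * T k) ^ μ (Sum.inr (Sum.inr k)) =
      c ^ e * ∏ k, T k ^ μ (Sum.inr (Sum.inr k)) := by
    simp only [mul_pow, Finset.prod_mul_distrib]
    rw [Finset.prod_pow_eq_pow_sum, hF μ hμ]
  rw [h1]
  ring

/-- the first nonzero coordinate is `1` -/
def Nrm {k : Type} [Field k] {n : ℕ} (T : Fin n → k) : Prop := ∃ i, T i = 1 ∧ ∀ j < i, T j = 0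

theorem Nrm.ne {k : Type} [Field k] {n : ℕ} {T : Fin n → k} (h : Nrm T) : T ≠ 0 := by
  obtain ⟨i, h1, _⟩ := h
  intro h0
  rw [h0] at h1
  exact zero_ne_one h1

theorem Nrm.eq {k : Type} [Field k] {n : ℕ} {T T' : Fin n → k} (h : Nrm T) (h' : Nrm T') {c : k}
    (hc : T = c • T') : T = T' := by
  obtain ⟨i, h1, h2⟩ := h
  obtain ⟨i', h1', h2'⟩ := h'
  have h3 : ∀ x, T x = c * T' x := fun x => congrFun hc x
  rcases lt_trichotomy i i' with hlt | heq | hgt
  · have h4 := h3 i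
    rw [h1, h2' i hlt, mul_zero] at h4
    exact absurd h4 one_ne_zero
  · subst heq
    have h4 := h3 i
    rw [h1, h1', mul_one] at h4
    rw [hc, ← h4, one_smul]
  · have h4 := h3 i'
    rw [h1', h2 i' hgt, mul_one] at h4
    have h5 := h3 i
    rw [← h4, zero_mul, h1] at h5
    exact absurd h5 one_ne_zero

theorem exists_nrm {k : Type} [Field k] {n : ℕ} (T : Fin n → k) (h : T ≠ 0) :
    ∃ c : k, c ≠ 0 ∧ Nrm (fun i => c * T i) := by
  have h1 : {i | T i ≠ 0}.Nonempty := by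
    obtain ⟨i, hi⟩ := Function.ne_iff.1 h
    exact ⟨i, hi⟩
  set i := (wellFounded_lt (α := Fin n)).min {i | T i ≠ 0} h1 with hi
  have h2 : T i ≠ 0 := (wellFounded_lt (α := Fin n)).min_mem {i | T i ≠ 0} h1
  refine ⟨(T i)⁻¹, inv_ne_zero h2, i, inv_mul_cancel₀ h2, ?_⟩
  intro j hj
  have h3 : T j = 0 := by
    by_contra h4
    exact (wellFounded_lt (α := Fin n)).not_lt_min {i | T i ≠ 0} h4 hj
  show (T i)⁻¹ * T j = 0
  rw [h3, mul_zero]

theorem Nrm.map {k k' : Type} [Field k] [Field k'] {n : ℕ} {T : Fin n → k} (h : Nrm T)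
    (σ : k →+* k') : Nrm (fun i => σ (T i)) := by
  obtain ⟨i, h1, h2⟩ := h
  exact ⟨i, by simp only [h1, map_one], fun j hj => by simp only [h2 j hj, map_zero]⟩

theorem Nrm.of_map {k k' : Type} [Field k] [Field k'] {n : ℕ} {T : Fin n → k}
    (σ : k →+* k') (h : Nrm (fun i => σ (T i))) : Nrm T := by
  obtain ⟨i, h1, h2⟩ := h
  exact ⟨i, σ.injective (h1.trans (map_one σ).symm),
    fun j hj => σ.injective ((h2 j hj).trans (map_zero σ).symm)⟩

/-- the number of the points of a projective fibre -/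
theorem cnt_nrm {O k : Type} [CommRing O] [Field k] [Fintype k] (φ : O →+* k) {r s m q : ℕ}
    (G : Fin q → Pol O r s m) (f : Fin q → ℕ) (hG : ∀ e, THomog (G e) (f e))
    (V : Fin r → Fin 3 → k) (u : Fin s → k) {D κ : ℕ}
    (h : Nat.card {T : Fin m → k // ∀ e, vl φ (G e) V u T = 0} ≤ D * Fintype.card k ^ (κ + 1)) :
    {T : Fin m → k | Nrm T ∧ ∀ e, vl φ (G e) V u T = 0}.ncard ≤ 2 * D * Fintype.card k ^ κ := by
  classical
  set S : Set (Fin m → k) := {T : Fin m → k | Nrm T ∧ ∀ e, vl φ (G e) V u T = 0} with hS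
  have h1 : Nat.card (kˣ × S) ≤ Nat.card {T : Fin m → k // ∀ e, vl φ (G e) V u T = 0} := by
    refine Nat.card_le_card_of_injective (fun x : kˣ × S =>
      (⟨fun i => (x.1 : k) * x.2.1 i, fun e => by
        rw [vl_scaleT' φ (G e) (f e) (hG e), x.2.2.2 e, mul_zero]⟩ :
        {T : Fin m → k // ∀ e, vl φ (G e) V u T = 0})) ?_
    rintro ⟨c, T, hT⟩ ⟨c', T', hT'⟩ hcc
    have h2 : ∀ i, (c : k) * T i = (c' : k) * T' i := fun i => congrFun (congrArg Subtype.val hcc) i
    have h3 : T = ((c : k)⁻¹ * c') • T' := by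
      funext i
      rw [Pi.smul_apply, smul_eq_mul, mul_assoc, ← h2 i, inv_mul_cancel_left₀ c.ne_zero]
    have h4 : T = T' := hT.1.eq hT'.1 h3
    subst h4
    obtain ⟨i, hi⟩ := Function.ne_iff.1 hT.1.ne
    have h5 : (c : k) = c' := mul_right_cancel₀ hi (h2 i)
    have h6 : c = c' := Units.ext h5
    subst h6
    rfl
  rw [Nat.card_prod, Nat.card_units, Nat.card_eq_fintype_card (α := k)] at h1
  have h2 : Nat.card S = S.ncard := rfl
  rw [h2] at h1
  have h3 : 2 ≤ Fintype.card k := Fintype.one_lt_card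
  have h4 : Fintype.card k ≤ 2 * (Fintype.card k - 1) := by omega
  have h5 : Fintype.card k * S.ncard ≤ Fintype.card k * (2 * D * Fintype.card k ^ κ) := by
    calc Fintype.card k * S.ncard ≤ 2 * (Fintype.card k - 1) * S.ncard :=
          Nat.mul_le_mul_right _ h4
      _ = 2 * ((Fintype.card k - 1) * S.ncard) := by ring
      _ ≤ 2 * (D * Fintype.card k ^ (κ + 1)) := Nat.mul_le_mul_left 2 (h1.trans h)
      _ = Fintype.card k * (2 * D * Fintype.card k ^ κ) := by ring
  exact Nat.le_of_mul_le_mul_left h5 (by omega)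

/-! ### counting -/

theorem ncard_pi {κ : ℕ} {ι : Fin κ → Type} {F : Type} (S : ∀ j, Set (ι j → F)) :
    {c : (Σ j, ι j) → F | ∀ j, (fun x => c ⟨j, x⟩) ∈ S j}.ncard = ∏ j, (S j).ncard := by
  have h1 : {c : (Σ j, ι j) → F | ∀ j, (fun x => c ⟨j, x⟩) ∈ S j}.ncard =
      Nat.card {c : (Σ j, ι j) → F // ∀ j, (fun x => c ⟨j, x⟩) ∈ S j} := rfl
  have h2 : ∀ j, (S j).ncard = Nat.card (S j) := fun j => rfl
  simp only [h1, h2]
  rw [← Nat.card_pi]
  refine Nat.card_congr ⟨fun c j => ⟨fun x => c.1 ⟨j, x⟩, c.2 j⟩,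
    fun g => ⟨fun x => (g x.1).1 x.2, fun j => (g j).2⟩, fun c => ?_, fun g => ?_⟩
  · rfl
  · rfl

/-- the conclusion of `S_BON` -/
def BonD (D k₀ : ℕ) (δ : ℝ) : Prop :=
  ∀ (C : Type) [Fintype C] (α : Type) (Z : Finset α) (E : α → Set C) (p : α → ℝ),
  (∀ T ∈ Z, 0 ≤ p T ∧ p T ≤ 1 / 2) → ∑ T ∈ Z, p T ≤ D →
  (∀ I : Finset α, I ⊆ Z → I.card ≤ k₀ →
    (({c : C | ∀ T ∈ I, c ∈ E T}.ncard : ℕ) : ℝ) = Fintype.card C * ∏ T ∈ I, p T) →
  (({c : C | ∃ T ∈ Z, c ∈ E T}.ncard : ℕ) : ℝ) ≤ (1 - δ) * Fintype.card C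

theorem dens_core {D' kB : ℕ} {δ : ℝ} (hB : BonD D' kB δ) {κ : ℕ} (hκ : 1 ≤ κ)
    {ι : Fin κ → Type} [∀ j, Fintype (ι j)] {F k : Type} [Field F] [Fintype F] [Field k]
    [Algebra F k] {α : Type} (Z : Finset α) (deg : α → ℕ) (hdeg : ∀ T ∈ Z, 1 ≤ deg T)
    (w : ∀ j, α → ι j → k) (y : Fin κ → α → k)
    (hsum : ∑ T ∈ Z, ((Fintype.card F : ℝ)⁻¹) ^ (κ * deg T) ≤ D')
    (hcnt : ∀ I ⊆ Z, I.card ≤ kB → ∀ j,
      {c : ι j → F | ∀ T ∈ I, ∑ x, algebraMap F k (c x) * w j T x = y j T}.ncard *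
        Fintype.card F ^ (∑ T ∈ I, deg T) = Fintype.card F ^ Fintype.card (ι j)) :
    (({c : (Σ j, ι j) → F | ∃ T ∈ Z, ∀ j, ∑ x, algebraMap F k (c ⟨j, x⟩) * w j T x =
      y j T}.ncard : ℕ) : ℝ) ≤ (1 - δ) * (Fintype.card F : ℝ) ^ Fintype.card (Σ j, ι j) := by
  classical
  have h2 : 2 ≤ Fintype.card F := Fintype.one_lt_card
  have h2r : (2 : ℝ) ≤ Fintype.card F := by exact_mod_cast h2
  have hq0 : (0 : ℝ) < (Fintype.card F : ℝ) := by linarith
  have h := hB ((Σ j, ι j) → F) α Z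
    (fun T => {c | ∀ j, ∑ x, algebraMap F k (c ⟨j, x⟩) * w j T x = y j T})
    (fun T => ((Fintype.card F : ℝ)⁻¹) ^ (κ * deg T)) (by
      intro T hT
      refine ⟨by positivity, ?_⟩
      have h3 : ((Fintype.card F : ℝ)⁻¹) ≤ 1 / 2 := by
        rw [inv_le_comm₀ hq0 (by norm_num)]
        norm_num
        linarith
      have h4 : 1 ≤ κ * deg T := Nat.mul_pos hκ (hdeg T hT)
      calc ((Fintype.card F : ℝ)⁻¹) ^ (κ * deg T) ≤ ((Fintype.card F : ℝ)⁻¹) ^ 1 :=
            pow_le_pow_of_le_one (by positivity) (by linarith) h4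
        _ = (Fintype.card F : ℝ)⁻¹ := pow_one _
        _ ≤ 1 / 2 := h3) hsum (by
      intro I hI hIc
      have h3 : {c : (Σ j, ι j) → F | ∀ T ∈ I, c ∈ {c : (Σ j, ι j) → F |
          ∀ j, ∑ x, algebraMap F k (c ⟨j, x⟩) * w j T x = y j T}} =
          {c : (Σ j, ι j) → F | ∀ j, (fun x => c ⟨j, x⟩) ∈ {c : ι j → F |
            ∀ T ∈ I, ∑ x, algebraMap F k (c x) * w j T x = y j T}} := by
        ext c
        simp only [Set.mem_ofPred_eq]
        exact ⟨fun h j T hT => h T hT j, fun h T hT j => h j T hT⟩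
      rw [h3, ncard_pi, Fintype.card_fun, Fintype.card_sigma, ← Finset.prod_pow_eq_pow_sum]
      push_cast
      have h4 : ∏ T ∈ I, ((Fintype.card F : ℝ)⁻¹) ^ (κ * deg T) =
          ∏ _j : Fin κ, ((Fintype.card F : ℝ)⁻¹) ^ (∑ T ∈ I, deg T) := by
        rw [Finset.prod_const, Finset.card_univ, Fintype.card_fin, ← pow_mul,
          Finset.prod_pow_eq_pow_sum, ← Finset.mul_sum, mul_comm]
      rw [h4, ← Finset.prod_mul_distrib]
      refine Finset.prod_congr rfl fun j _ => ?_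
      have h5 := hcnt I hI hIc j
      have h6 : (({c : ι j → F | ∀ T ∈ I, ∑ x, algebraMap F k (c x) * w j T x =
          y j T}.ncard : ℕ) : ℝ) * (Fintype.card F : ℝ) ^ (∑ T ∈ I, deg T) =
          (Fintype.card F : ℝ) ^ Fintype.card (ι j) := by exact_mod_cast h5
      rw [← h6, mul_assoc, ← mul_pow, mul_inv_cancel₀ hq0.ne', one_pow, mul_one])
  rw [Fintype.card_fun] at h
  push_cast at h
  exact h

/-! ### linear independence of families -/

theorem sepFib_fam {O k : Type} [CommRing O] [Field k] {φ : O →+* k} {r s m q : ℕ}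
    {a b : Fin r → ℤ} {G : Fin q → Pol O r s m} {ι : Type} {Λ : ι → Pol O r s m} {k₀ : ℕ}
    (h : SepFib φ a b G Λ k₀) {V : Fin r → Fin 3 → k} {u : Fin s → k} (hV : OnB a b V u)
    {J : Type} [Fintype J] (hJ : Fintype.card J ≤ k₀) (T : J → Fin m → k)
    (hT : ∀ i, OnF φ G V u (T i)) (hne : ∀ i j, i ≠ j → ∀ c : k, T i ≠ c • T j) :
    LinearIndependent k (fun i => fun x => vl φ (Λ x) V u (T i)) := by
  have e := Fintype.equivFin J
  have h1 := h V u hV _ hJ (fun i => T (e.symm i)) (fun i => hT _)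
    (fun i j hij => hne _ _ (fun h => hij (e.symm.injective h)))
  exact (linearIndependent_equiv e.symm).1 h1

theorem sepTwo_fam {O k : Type} [CommRing O] [Field k] {φ : O →+* k} {r s m q : ℕ}
    {a b : Fin r → ℤ} {G : Fin q → Pol O r s m} {ι : Type} {Λ : ι → Pol O r s m} {k₀ : ℕ}
    (h : SepTwo φ a b G Λ k₀) {V V' : Fin r → Fin 3 → k} {u u' : Fin s → k} (hV : OnB a b V u)
    (hV' : OnB a b V' u') (hne : ¬ SameB V u V' u')
    {J : Type} [Fintype J] (hJ : Fintype.card J ≤ k₀) (g : J → Bool) (T : J → Fin m → k)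
    (hT : ∀ i, OnF φ G (cond (g i) V' V) (cond (g i) u' u) (T i))
    (hTne : ∀ i j, i ≠ j → g i = g j → ∀ c : k, T i ≠ c • T j) :
    LinearIndependent k (fun i => fun x =>
      vl φ (Λ x) (cond (g i) V' V) (cond (g i) u' u) (T i)) := by
  have e := Fintype.equivFin J
  have h1 := h V V' u u' hV hV' hne _ hJ (fun i => g (e.symm i)) (fun i => T (e.symm i))
    (fun i => hT _) (fun i j hij hg => hTne _ _ (fun h => hij (e.symm.injective h)) hg)
  exact (linearIndependent_equiv e.symm).1 h1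

/-- the case `k = F` -/
theorem hcnt_one (hLIN1 : S_LIN1) {F k : Type} [Field F] [Fintype F] [Field k] [Fintype k]
    [Algebra F k] (hFk : Fintype.card k = Fintype.card F) {ι : Type} [Fintype ι] {α : Type}
    (I : Finset α) (w : α → ι → k) (y : α → k) (hli : LinearIndependent k (fun T : I => w T.1)) :
    {c : ι → F | ∀ T ∈ I, ∑ x, algebraMap F k (c x) * w T x = y T}.ncard *
      Fintype.card F ^ (∑ _T ∈ I, 1) = Fintype.card F ^ Fintype.card ι := by
  classical
  have hbij : Function.Bijective (algebraMap F k) := by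
    rw [Fintype.bijective_iff_injective_and_card]
    exact ⟨(algebraMap F k).injective, hFk.symm⟩
  set e : {T // T ∈ I} ≃ Fin I.card := I.equivFin with he
  have h1 := hLIN1 k ι I.card (fun i => w (e.symm i).1) (fun i => y (e.symm i).1)
    ((linearIndependent_equiv e.symm).2 hli)
  rw [Finset.sum_const, smul_eq_mul, mul_one, ← hFk, ← h1]
  congr 1
  have h2 : {c : ι → k | ∀ i : Fin I.card, ∑ x, c x * w (e.symm i).1 x = y (e.symm i).1} =
      (fun (c : ι → F) x => algebraMap F k (c x)) ''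
        {c : ι → F | ∀ T ∈ I, ∑ x, algebraMap F k (c x) * w T x = y T} := by
    ext c
    constructor
    · intro hc
      choose c' hc' using fun x => hbij.2 (c x)
      refine ⟨c', ?_, funext hc'⟩
      intro T hT
      have h3 := hc (e ⟨T, hT⟩)
      rw [Equiv.symm_apply_apply] at h3
      simp only [hc']
      exact h3
    · rintro ⟨c', hc', rfl⟩ i
      exact hc' _ (e.symm i).2
  rw [h2, Set.ncard_image_of_injective]
  intro c c' hcc
  funext x
  exact hbij.1 (congrFun hcc x)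

/-- the case `k` quadratic over `F` -/
theorem hcnt_two (hLIN : S_LIN) {F k : Type} [Field F] [Fintype F] [Field k] [Fintype k]
    [Algebra F k] (σ : k →+* k) (hFk : Fintype.card k = Fintype.card F ^ 2)
    (hσ : ∀ x, σ x = x ^ Fintype.card F) {ι : Type} [Fintype ι] {α : Type}
    (I : Finset α) (R : α → Prop) [DecidablePred R] (w : α → ι → k) (y : α → k)
    (hR : ∀ T ∈ I, R T → (∀ x, ∃ z : F, algebraMap F k z = w T x) ∧
      ∃ z : F, algebraMap F k z = y T)
    (hli : LinearIndependent k (Sum.elim (fun T : {T // T ∈ I} => w T.1)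
      (fun T : {T // T ∈ I ∧ ¬ R T} => fun x => σ (w T.1 x)))) :
    {c : ι → F | ∀ T ∈ I, ∑ x, algebraMap F k (c x) * w T x = y T}.ncard *
      Fintype.card F ^ (∑ T ∈ I, if R T then 1 else 2) = Fintype.card F ^ Fintype.card ι := by
  classical
  set e : {T // T ∈ I} ≃ Fin I.card := I.equivFin with he
  set R' : Finset (Fin I.card) := Finset.univ.filter fun i => R (e.symm i).1 with hR'
  have hmem : ∀ i, i ∈ R' ↔ R (e.symm i).1 := fun i => by simp [hR']
  have h1 := hLIN F k σ hFk hσ ι I.card R' (fun i => w (e.symm i).1) (fun i => y (e.symm i).1)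
    (fun i hi => hR _ (e.symm i).2 ((hmem i).1 hi)) (by
      have h2 : Function.Injective (Sum.map (fun i : Fin I.card => e.symm i)
          (fun i : {i : Fin I.card // i ∉ R'} => (⟨(e.symm i.1).1, (e.symm i.1).2,
            fun h => i.2 ((hmem i.1).2 h)⟩ : {T // T ∈ I ∧ ¬ R T}))) := by
        apply Function.Injective.sumMap
        · exact e.symm.injective
        · intro i i' hii
          have h3 : (e.symm i.1).1 = (e.symm i'.1).1 :=
            congrArg (fun z : {T // T ∈ I ∧ ¬ R T} => z.1) hii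
          exact Subtype.ext (e.symm.injective (Subtype.ext h3))
      have h4 := hli.comp _ h2
      convert h4 using 1
      funext i
      rcases i with i | i <;> rfl)
  have h5 : ∑ T ∈ I, (if R T then 1 else 2) = R'.card + 2 * (I.card - R'.card) := by
    have h6 : ∑ T ∈ I, (if R T then 1 else 2) =
        ∑ i : Fin I.card, (if i ∈ R' then 1 else 2) := by
      rw [← Finset.sum_coe_sort I, ← Equiv.sum_comp e.symm]
      refine Finset.sum_congr rfl fun i _ => ?_
      simp only [hmem]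
    rw [h6, Finset.sum_ite, Finset.sum_const, Finset.sum_const]
    have h7 : (Finset.univ.filter fun i : Fin I.card => i ∈ R') = R' := by
      ext i
      simp
    have h8 : (Finset.univ.filter fun i : Fin I.card => i ∉ R') = R'ᶜ := by
      ext i
      simp
    rw [h7, h8, Finset.card_compl, Fintype.card_fin, smul_eq_mul, smul_eq_mul, mul_one, mul_comm 2]
  rw [h5, ← h1]
  congr 2
  ext c
  constructor
  · intro hc i
    exact hc _ (e.symm i).2
  · intro hc T hT
    have h9 := hc (e ⟨T, hT⟩)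
    simp only [Equiv.symm_apply_apply] at h9
    exact h9

end Pool.Agent.N89.GS
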