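import Pool.Agent.N89.GS.Dens2

/-! Project GS (helper89): density of the members with a point over a given point of `G` modulo a
prime: the theorem. -/

set_option autoImplicit false

namespace Pool.Agent.N89.GS

open MvPolynomial NumberField Pool.Agent.W659 Pool.Agent.W659.SA

/-- the statement of the local theorem -/
def LocalD (D k₀ : ℕ) (δ : ℝ) : Prop :=
  ∀ (κ : ℕ), 1 ≤ κ → ∀ (r s m q : ℕ) (a b : Fin r → ℤ) (F k : Type) [Field F] [Fintype F]
    [Field k] [Fintype k] [Algebra F k],
    (Fintype.card k = Fintype.card F ∨ Fintype.card k = Fintype.card F ^ 2) →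
  ∀ (O : Type) [CommRing O] (φ : O →+* F) (G : Fin q → Pol O r s m) (dG : Fin q → Fin r → ℕ)
    (fG : Fin q → ℕ), (∀ e, MHomog (G e) (dG e)) → (∀ e, THomog (G e) (fG e)) →
  ∀ (Φ : Fin κ → Pol O r s m) (ι : Fin κ → Type) [∀ j, Fintype (ι j)]
    (Λ : (j : Fin κ) → ι j → Pol O r s m) (d : Fin κ → Fin r → ℕ) (e : Fin κ → ℕ),
    (∀ j, MHomog (Φ j) (d j)) → (∀ j, THomog (Φ j) (e j)) → (∀ j x, MHomog (Λ j x) (d j)) →
    (∀ j x, THomog (Λ j x) (e j)) →
  (∀ (V : Fin r → Fin 3 → k) (u : Fin s → k), OnB a b V u →
    Nat.card {T : Fin m → k // ∀ e, vl ((algebraMap F k).comp φ) (G e) V u T = 0} ≤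
      D * Fintype.card k ^ (κ + 1)) →
  (∀ (V : Fin r → Fin 3 → F) (u : Fin s → F), OnB a b V u →
    Nat.card {T : Fin m → F // ∀ e, vl φ (G e) V u T = 0} ≤ D * Fintype.card F ^ (κ + 1)) →
  (∀ j, SepFib ((algebraMap F k).comp φ) a b G (Λ j) k₀) →
  (Fintype.card k = Fintype.card F ∨
    ∀ j, SepTwo ((algebraMap F k).comp φ) a b G (Λ j) k₀) →
  ∀ (V : Fin r → Fin 3 → k) (u : Fin s → k), OnB a b V u →
    (((BadAt φ G Φ Λ V u).ncard : ℕ) : ℝ) ≤
      (1 - δ) * (Fintype.card F : ℝ) ^ Fintype.card (Σ j, ι j)

theorem localD (hBON : S_BON) (hLIN : S_LIN) (hLIN1 : S_LIN1) (D : ℕ) :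
    ∃ (k₀ : ℕ) (δ : ℝ), 0 < δ ∧ δ < 1 ∧ LocalD D k₀ δ := by
  classical
  obtain ⟨kB, δ, hδ0, hδ1, hB⟩ := hBON (4 * D)
  refine ⟨2 * kB, δ, hδ0, hδ1, ?_⟩
  intro κ hκ r s m q a b F k _ _ _ _ _ hcard O _ φ G dG fG hdG hfG Φ ι _ Λ d e hdΦ heΦ hdΛ heΛ
    hfk hfF hsf hsw V u hV
  suffices h : ∀ V : Fin r → Fin 3 → k, (∀ i, Nrm (V i)) → OnB a b V u →
      (((BadAt φ G Φ Λ V u).ncard : ℕ) : ℝ) ≤
        (1 - δ) * (Fintype.card F : ℝ) ^ Fintype.card (Σ j, ι j) by
    choose c hc0 hcN using fun i => exists_nrm (V i) (hV.1 i).1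
    rw [← badAt_scale φ G Φ Λ dG hdG d hdΦ hdΛ V u c hc0]
    exact h _ hcN ⟨fun i => onE_scale (hV.1 i) (hc0 i), hV.2⟩
  clear hV V
  intro V hVN hV
  set ψ : O →+* k := (algebraMap F k).comp φ with hψ
  have hF2 : 2 ≤ Fintype.card F := Fintype.one_lt_card
  have hF2r : (2 : ℝ) ≤ Fintype.card F := by exact_mod_cast hF2
  have hq0 : (0 : ℝ) < (Fintype.card F : ℝ) := by linarith
  have hfin : {T : Fin m → k | Nrm T ∧ ∀ e, vl ψ (G e) V u T = 0}.Finite := Set.toFinite _
  set Z : Finset (Fin m → k) := hfin.toFinset with hZ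
  have hZmem : ∀ T, T ∈ Z ↔ Nrm T ∧ ∀ e, vl ψ (G e) V u T = 0 := fun T => by
    rw [hZ, Set.Finite.mem_toFinset]
    rfl
  have hZc : Z.card ≤ 2 * D * Fintype.card k ^ κ := by
    rw [hZ, ← Set.ncard_eq_toFinset_card _ hfin]
    exact cnt_nrm ψ G fG hfG V u (hfk V u hV)
  have hZne : ∀ T ∈ Z, ∀ T' ∈ Z, T ≠ T' → ∀ c : k, T ≠ c • T' := by
    intro T hT T' hT' hne c hc
    exact hne ((((hZmem T).1 hT).1).eq ((hZmem T').1 hT').1 hc)
  have hZF : ∀ T ∈ Z, OnF ψ G V u T := fun T hT =>
    ⟨((hZmem T).1 hT).1.ne, ((hZmem T).1 hT).2⟩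
  rcases hcard with hA | hA
  · -- the case `k = F`
    have h := dens_core hB hκ Z (fun _ => 1) (fun _ _ => le_rfl)
      (fun j T x => vl ψ (Λ j x) V u T) (fun j T => -vl ψ (Φ j) V u T) (by
        rw [Finset.sum_const, nsmul_eq_mul, mul_one]
        have h1 : (Z.card : ℝ) ≤ 2 * D * (Fintype.card F : ℝ) ^ κ := by
          rw [hA] at hZc
          exact_mod_cast hZc
        calc (Z.card : ℝ) * ((Fintype.card F : ℝ)⁻¹) ^ κ
            ≤ (2 * D * (Fintype.card F : ℝ) ^ κ) * ((Fintype.card F : ℝ)⁻¹) ^ κ :=
              mul_le_mul_of_nonneg_right h1 (by positivity)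
          _ = 2 * D := by rw [mul_assoc, ← mul_pow, mul_inv_cancel₀ hq0.ne', one_pow, mul_one]
          _ ≤ ((4 * D : ℕ) : ℝ) := by
            push_cast
            have : (0 : ℝ) ≤ D := Nat.cast_nonneg _
            linarith) (by
        intro I hI hIc j
        refine hcnt_one hLIN1 hA I (fun T x => vl ψ (Λ j x) V u T)
          (fun T => -vl ψ (Φ j) V u T) ?_
        refine sepFib_fam (hsf j) hV (J := I) (by rw [Fintype.card_coe]; omega)
          (fun T => T.1) (fun T => hZF _ (hI T.2)) (fun T T' hTT => ?_)
        exact hZne _ (hI T.2) _ (hI T'.2) (fun h => hTT (Subtype.ext h)))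
    refine le_trans ?_ h
    have h2 : BadAt φ G Φ Λ V u ⊆ {c : (Σ j, ι j) → F | ∃ T ∈ Z, ∀ j,
        ∑ x, algebraMap F k (c ⟨j, x⟩) * vl ψ (Λ j x) V u T = -vl ψ (Φ j) V u T} := by
      intro c hc
      obtain ⟨T, hT, hj⟩ := badAt_sub φ G Φ Λ fG hfG e heΦ heΛ V u hc
      exact ⟨T, (hZmem T).2 hT, hj⟩
    exact_mod_cast Set.ncard_le_ncard h2 (Set.toFinite _)
  · -- the case of a quadratic extension
    have hne : Fintype.card k ≠ Fintype.card F := by
      rw [hA]
      intro h
      nlinarith
    have hsw' := hsw.resolve_left hne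
    set σ : k →+* k := ((FiniteField.frobeniusAlgHom F k : k →ₐ[F] k) : k →+* k) with hσ
    have hσx : ∀ x, σ x = x ^ Fintype.card F := fun x => rfl
    have hσF : ∀ z : F, σ (algebraMap F k z) = algebraMap F k z := fun z =>
      (FiniteField.frobeniusAlgHom F k).commutes z
    have hσσ : ∀ x, σ (σ x) = x := by
      intro x
      rw [hσx, hσx, ← pow_mul, ← pow_two, ← hA, FiniteField.pow_card]
    have hσψ : σ.comp ψ = ψ := by
      ext x
      rw [RingHom.comp_apply, hψ, RingHom.comp_apply, hσF]
    have hσvl : ∀ (P : Pol O r s m) (V : Fin r → Fin 3 → k) (u : Fin s → k) (T : Fin m → k),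
        σ (vl ψ P V u T) = vl ψ P (fun i j => σ (V i j)) (fun l => σ (u l)) (fun i => σ (T i)) := by
      intro P V u T
      rw [vl_map ψ σ P V u T, hσψ]
    have hZr : (Z.card : ℝ) * ((Fintype.card F : ℝ)⁻¹) ^ (κ * 2) ≤ 2 * D := by
      have h1 : (Z.card : ℝ) ≤ 2 * D * (Fintype.card F : ℝ) ^ (κ * 2) := by
        rw [hA, ← pow_mul, mul_comm 2 κ] at hZc
        exact_mod_cast hZc
      calc (Z.card : ℝ) * ((Fintype.card F : ℝ)⁻¹) ^ (κ * 2)
          ≤ (2 * D * (Fintype.card F : ℝ) ^ (κ * 2)) * ((Fintype.card F : ℝ)⁻¹) ^ (κ * 2) :=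
            mul_le_mul_of_nonneg_right h1 (by positivity)
        _ = 2 * D := by rw [mul_assoc, ← mul_pow, mul_inv_cancel₀ hq0.ne', one_pow, mul_one]
    by_cases hst : (∀ i x, σ (V i x) = V i x) ∧ ∀ l, σ (u l) = u l
    · -- the point of `G` is rational over `F`
      have hσvl' : ∀ (P : Pol O r s m) (T : Fin m → k),
          σ (vl ψ P V u T) = vl ψ P V u (fun i => σ (T i)) := by
        intro P T
        rw [hσvl]
        congr 1
        · funext i x
          exact hst.1 i x
        · funext l
          exact hst.2 l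
      have hZσ : ∀ T ∈ Z, (fun i => σ (T i)) ∈ Z := by
        intro T hT
        obtain ⟨h1, h2⟩ := (hZmem T).1 hT
        rw [hZmem]
        refine ⟨h1.map σ, fun l => ?_⟩
        rw [← hσvl', h2 l, map_zero]
      -- representatives of the orbits
      let st : Setoid (Fin m → k) :=
        { r := fun T T' => T = T' ∨ T = fun i => σ (T' i)
          iseqv :=
            { refl := fun T => Or.inl rfl
              symm := by
                rintro T T' (h | h)
                · exact Or.inl h.symm
                · right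
                  rw [h]
                  funext i
                  exact (hσσ _).symm
              trans := by
                rintro T T' T'' (h | h) (h' | h')
                · exact Or.inl (h.trans h')
                · exact Or.inr (h.trans h')
                · right
                  rw [h, h']
                · left
                  rw [h, h']
                  funext i
                  exact hσσ _ } }
      let rp : (Fin m → k) → (Fin m → k) := fun T => (Quotient.mk st T).out
      have hrp1 : ∀ T, rp T = T ∨ rp T = fun i => σ (T i) := fun T =>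
        Quotient.exact (s := st) (Quotient.out_eq (Quotient.mk st T))
      have hrp2 : ∀ T T', (T = T' ∨ T = fun i => σ (T' i)) → rp T = rp T' := by
        intro T T' h
        have h1 : Quotient.mk st T = Quotient.mk st T' := Quotient.sound (s := st) h
        show (Quotient.mk st T).out = (Quotient.mk st T').out
        rw [h1]
      set Z' : Finset (Fin m → k) := Z.image rp with hZ'
      have hZ'Z : ∀ T ∈ Z', T ∈ Z ∧ rp T = T := by
        intro T hT
        rw [hZ', Finset.mem_image] at hT
        obtain ⟨T₀, hT₀, rfl⟩ := hT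
        refine ⟨?_, hrp2 _ _ (hrp1 T₀)⟩
        rcases hrp1 T₀ with h | h
        · rw [h]; exact hT₀
        · rw [h]; exact hZσ _ hT₀
      have hZ'c : (Z'.card : ℝ) ≤ Z.card := by exact_mod_cast Finset.card_image_le
      have hZ'ne : ∀ T ∈ Z', ∀ T' ∈ Z', (T = fun i => σ (T' i)) → T = T' := by
        intro T hT T' hT' h
        rw [← (hZ'Z T hT).2, ← (hZ'Z T' hT').2]
        exact hrp2 _ _ (Or.inr h)
      let R : (Fin m → k) → Prop := fun T => (fun i => σ (T i)) = T
      -- the point over `F`
      choose VF hVF using fun i x => mem_of_pow (F := F) ((hσx _).symm.trans (hst.1 i x))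
      choose uF huF using fun l => mem_of_pow (F := F) ((hσx _).symm.trans (hst.2 l))
      have hBF : OnB a b VF uF := by
        refine ⟨fun i => onE_of_map (algebraMap F k) ?_, fun l h => hV.2 l ?_⟩
        · simp only [hVF]
          exact hV.1 i
        · rw [← huF l, h, map_zero]
      have hval : ∀ (P : Pol O r s m) (TF : Fin m → F),
          vl ψ P V u (fun i => algebraMap F k (TF i)) = algebraMap F k (vl φ P VF uF TF) := by
        intro P TF
        rw [vl_map φ (algebraMap F k) P VF uF TF]
        congr 1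
        · funext i x
          exact (hVF i x).symm
        · funext l
          exact (huF l).symm
      have hRF : ∀ T, R T → ∃ TF : Fin m → F, (fun i => algebraMap F k (TF i)) = T := by
        intro T hT
        choose TF hTF using fun i => mem_of_pow (F := F) ((hσx (T i)).symm.trans (congrFun hT i))
        exact ⟨TF, funext hTF⟩
      have hrat : (Z.filter R).card ≤ 2 * D * Fintype.card F ^ κ := by
        have h1 := cnt_nrm φ G fG hfG VF uF (hfF VF uF hBF)
        refine le_trans ?_ h1
        have h2 : ((Z.filter R : Finset (Fin m → k)) : Set (Fin m → k)) ⊆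
            (fun (TF : Fin m → F) i => algebraMap F k (TF i)) ''
              {T : Fin m → F | Nrm T ∧ ∀ e, vl φ (G e) VF uF T = 0} := by
          intro T hT
          rw [Finset.mem_coe, Finset.mem_filter, hZmem] at hT
          obtain ⟨TF, hTF⟩ := hRF T hT.2
          refine ⟨TF, ⟨?_, fun l => ?_⟩, hTF⟩
          · apply Nrm.of_map (algebraMap F k)
            rw [hTF]
            exact hT.1.1
          · apply (algebraMap F k).injective
            rw [← hval, hTF, hT.1.2 l, map_zero]
        have h3 := Set.ncard_le_ncard h2 (Set.toFinite _)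
        rw [Set.ncard_coe_finset] at h3
        exact h3.trans (Set.ncard_image_le (Set.toFinite _))
      have h := dens_core hB hκ Z' (fun T => if R T then 1 else 2)
        (fun T _ => by split_ifs <;> norm_num)
        (fun j T x => vl ψ (Λ j x) V u T) (fun j T => -vl ψ (Φ j) V u T) (by
          have h1 : ∀ T ∈ Z', ((Fintype.card F : ℝ)⁻¹) ^ (κ * (if R T then 1 else 2)) ≤
              (if R T then ((Fintype.card F : ℝ)⁻¹) ^ κ else 0) +
                ((Fintype.card F : ℝ)⁻¹) ^ (κ * 2) := by
            intro T _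
            by_cases hR : R T
            · rw [if_pos hR, if_pos hR, mul_one]
              have : (0 : ℝ) ≤ ((Fintype.card F : ℝ)⁻¹) ^ (κ * 2) := by positivity
              linarith
            · rw [if_neg hR, if_neg hR, zero_add]
          refine (Finset.sum_le_sum h1).trans ?_
          rw [Finset.sum_add_distrib, ← Finset.sum_filter, Finset.sum_const, Finset.sum_const,
            nsmul_eq_mul, nsmul_eq_mul]
          have h2 : (((Z'.filter R).card : ℕ) : ℝ) ≤ 2 * D * (Fintype.card F : ℝ) ^ κ := by
            have h3 : Z'.filter R ⊆ Z.filter R := by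
              intro T hT
              rw [Finset.mem_filter] at hT ⊢
              exact ⟨(hZ'Z T hT.1).1, hT.2⟩
            exact_mod_cast (Finset.card_le_card h3).trans hrat
          have h4 : (((Z'.filter R).card : ℕ) : ℝ) * ((Fintype.card F : ℝ)⁻¹) ^ κ ≤ 2 * D := by
            calc (((Z'.filter R).card : ℕ) : ℝ) * ((Fintype.card F : ℝ)⁻¹) ^ κ
                ≤ (2 * D * (Fintype.card F : ℝ) ^ κ) * ((Fintype.card F : ℝ)⁻¹) ^ κ :=
                  mul_le_mul_of_nonneg_right h2 (by positivity)
              _ = 2 * D := by rw [mul_assoc, ← mul_pow, mul_inv_cancel₀ hq0.ne', one_pow, mul_one]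
          have h5 : (Z'.card : ℝ) * ((Fintype.card F : ℝ)⁻¹) ^ (κ * 2) ≤ 2 * D :=
            (mul_le_mul_of_nonneg_right hZ'c (by positivity)).trans hZr
          push_cast
          linarith) (by
          intro I hI hIc j
          refine hcnt_two hLIN σ hA hσx I R (fun T x => vl ψ (Λ j x) V u T)
            (fun T => -vl ψ (Φ j) V u T) ?_ ?_
          · intro T hT hR
            obtain ⟨TF, hTF⟩ := hRF T hR
            refine ⟨fun x => ⟨vl φ (Λ j x) VF uF TF, ?_⟩, ⟨-vl φ (Φ j) VF uF TF, ?_⟩⟩
            · rw [← hval, hTF]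
            · rw [map_neg, ← hval, hTF]
          · have h1 := sepFib_fam (hsf j) hV (J := {T // T ∈ I} ⊕ {T // T ∈ I ∧ ¬ R T}) (by
                rw [Fintype.card_sum, Fintype.card_coe]
                have h2 : Fintype.card {T // T ∈ I ∧ ¬ R T} ≤ I.card := by
                  rw [← Fintype.card_coe]
                  exact Fintype.card_le_of_injective (fun T => (⟨T.1, T.2.1⟩ : {T // T ∈ I}))
                    (fun T T' h => Subtype.ext (congrArg (fun z : {T // T ∈ I} => z.1) h))
                omega) (Sum.elim (fun T => T.1) (fun T => fun i => σ (T.1 i))) (by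
                rintro (T | T)
                · exact hZF _ (hZ'Z _ (hI T.2)).1
                · exact hZF _ (hZσ _ (hZ'Z _ (hI T.2.1)).1)) (by
                rintro (T | T) (T' | T') hTT
                · exact hZne _ (hZ'Z _ (hI T.2)).1 _ (hZ'Z _ (hI T'.2)).1
                    (fun h => hTT (congrArg Sum.inl (Subtype.ext h)))
                · refine hZne _ (hZ'Z _ (hI T.2)).1 _ (hZσ _ (hZ'Z _ (hI T'.2.1)).1) (fun h => ?_)
                  have h3 := hZ'ne _ (hI T.2) _ (hI T'.2.1) h
                  apply T'.2.2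
                  show (fun i => σ (T'.1 i)) = T'.1
                  exact (show T.1 = fun i => σ (T'.1 i) from h).symm.trans h3
                · refine hZne _ (hZσ _ (hZ'Z _ (hI T.2.1)).1) _ (hZ'Z _ (hI T'.2)).1 (fun h => ?_)
                  have h3 := hZ'ne _ (hI T'.2) _ (hI T.2.1) h.symm
                  apply T.2.2
                  show (fun i => σ (T.1 i)) = T.1
                  rw [← h3] at h ⊢
                  exact h
                · refine hZne _ (hZσ _ (hZ'Z _ (hI T.2.1)).1) _ (hZσ _ (hZ'Z _ (hI T'.2.1)).1)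
                    (fun h => hTT (congrArg Sum.inr (Subtype.ext ?_)))
                  funext i
                  exact σ.injective (congrFun h i))
            convert h1 using 1
            funext T
            rcases T with T | T
            · rfl
            · funext x
              exact hσvl' _ _)
      refine le_trans ?_ h
      have h2 : BadAt φ G Φ Λ V u ⊆ {c : (Σ j, ι j) → F | ∃ T ∈ Z', ∀ j,
          ∑ x, algebraMap F k (c ⟨j, x⟩) * vl ψ (Λ j x) V u T = -vl ψ (Φ j) V u T} := by
        intro c hc
        obtain ⟨T, hT, hj⟩ := badAt_sub φ G Φ Λ fG hfG e heΦ heΛ V u hc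
        refine ⟨rp T, Finset.mem_image_of_mem _ ((hZmem T).2 hT), fun j => ?_⟩
        rcases hrp1 T with h | h
        · rw [h]; exact hj j
        · rw [h]
          have h3 := congrArg σ (hj j)
          rw [map_sum, map_neg, hσvl'] at h3
          rw [← h3]
          refine Finset.sum_congr rfl fun x _ => ?_
          rw [map_mul, hσF, hσvl']
      exact_mod_cast Set.ncard_le_ncard h2 (Set.toFinite _)
    · -- the point of `G` is not rational over `F`
      have hVσ : OnB a b (fun i j => σ (V i j)) (fun l => σ (u l)) :=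
        ⟨fun i => onE_map σ (hV.1 i), fun l h => hV.2 l (σ.injective (h.trans (map_zero σ).symm))⟩
      have hns : ¬ SameB V u (fun i j => σ (V i j)) (fun l => σ (u l)) := by
        rintro ⟨h1, h2⟩
        apply hst
        refine ⟨fun i x => ?_, fun l => (congrFun h2 l).symm⟩
        obtain ⟨c, hc⟩ := h1 i
        exact (congrFun ((hVN i).eq ((hVN i).map σ) hc) x).symm
      have h := dens_core hB hκ Z (fun T => if False then 1 else 2) (fun T _ => by norm_num)
        (fun j T x => vl ψ (Λ j x) V u T) (fun j T => -vl ψ (Φ j) V u T) (by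
          rw [Finset.sum_const, nsmul_eq_mul, if_neg not_false]
          refine hZr.trans ?_
          push_cast
          have h0 : (0 : ℝ) ≤ D := Nat.cast_nonneg _
          linarith) (by
          intro I hI hIc j
          refine hcnt_two hLIN σ hA hσx I (fun _ => False) (fun T x => vl ψ (Λ j x) V u T)
            (fun T => -vl ψ (Φ j) V u T) (fun T _ h => h.elim) ?_
          have h1 := sepTwo_fam (hsw' j) hV hVσ hns
              (J := {T // T ∈ I} ⊕ {T // T ∈ I ∧ ¬ False}) (by
                rw [Fintype.card_sum, Fintype.card_coe]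
                have h2 : Fintype.card {T // T ∈ I ∧ ¬ False} ≤ I.card := by
                  rw [← Fintype.card_coe]
                  exact Fintype.card_le_of_injective (fun T => (⟨T.1, T.2.1⟩ : {T // T ∈ I}))
                    (fun T T' h => Subtype.ext (congrArg (fun z : {T // T ∈ I} => z.1) h))
                omega) (Sum.elim (fun _ => false) (fun _ => true))
              (Sum.elim (fun T => T.1) (fun T => fun i => σ (T.1 i))) (by
                rintro (T | T)
                · exact hZF _ (hI T.2)
                · refine ⟨((hZmem _).1 (hI T.2.1)).1.map σ |>.ne, fun l => ?_⟩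
                  show vl ψ (G l) (fun i j => σ (V i j)) (fun l => σ (u l))
                    (fun i => σ (T.1 i)) = 0
                  rw [← hσvl, ((hZmem _).1 (hI T.2.1)).2 l, map_zero]) (by
                rintro (T | T) (T' | T') hTT hg
                · exact hZne _ (hI T.2) _ (hI T'.2)
                    (fun h => hTT (congrArg Sum.inl (Subtype.ext h)))
                · exact absurd hg (by simp)
                · exact absurd hg (by simp)
                · intro c hc
                  have h3 := (((hZmem _).1 (hI T.2.1)).1.map σ).eq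
                    (((hZmem _).1 (hI T'.2.1)).1.map σ) hc
                  apply hTT
                  refine congrArg Sum.inr (Subtype.ext ?_)
                  funext i
                  exact σ.injective (congrFun h3 i))
          convert h1 using 1
          funext T
          rcases T with T | T
          · rfl
          · funext x
            exact hσvl _ _ _ _)
      refine le_trans ?_ h
      have h2 : BadAt φ G Φ Λ V u ⊆ {c : (Σ j, ι j) → F | ∃ T ∈ Z, ∀ j,
          ∑ x, algebraMap F k (c ⟨j, x⟩) * vl ψ (Λ j x) V u T = -vl ψ (Φ j) V u T} := by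
        intro c hc
        obtain ⟨T, hT, hj⟩ := badAt_sub φ G Φ Λ fG hfG e heΦ heΛ V u hc
        exact ⟨T, (hZmem T).2 hT, hj⟩
      exact_mod_cast Set.ncard_le_ncard h2 (Set.toFinite _)

end Pool.Agent.N89.GS
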