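import Pool.Agent.N89.GS.Sieve2

/-! Project GS (helper89): the main theorem. -/

set_option autoImplicit false

namespace Pool.Agent.N89.GS

open MvPolynomial NumberField Pool.Agent.H901R3.MS Pool.Agent.W659 Pool.Agent.W659.SA

/-- the main statement -/
def MainGS (K : Type) [Field K] [NumberField K] {r s m q : ℕ} (κ : ℕ) (a b : Fin r → ℤ)
    (G : Fin q → Pol (𝓞 K) r s m) (σ : K →+* ℂ) (k₀ : ℕ) : Prop :=
  ∀ (Φ : Fin κ → Pol (𝓞 K) r s m) (ι : Fin κ → Type) [∀ j, Fintype (ι j)]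
    (Λ : (j : Fin κ) → ι j → Pol (𝓞 K) r s m) (d : Fin κ → Fin r → ℕ) (e : Fin κ → ℕ),
    (∀ j, MHomog (Φ j) (d j)) → (∀ j, THomog (Φ j) (e j)) → (∀ j x, MHomog (Λ j x) (d j)) →
    (∀ j x, THomog (Λ j x) (e j)) → (∀ j, SepFib (toC σ) a b G (Λ j) k₀) →
  ∀ (L : Type) [Field L] [NumberField L] [Algebra K L],
    (Function.Surjective (algebraMap K L) ∨ ∀ j, SepTwo (toC σ) a b G (Λ j) k₀) →
  ∀ (Γ : Subgroup Lˣ), Γ.FG → ∀ (N : ℕ) (ω : Module.Basis (Fin N) ℤ (𝓞 K)),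
  ∃ c : ℝ, 0 < c ∧ ∃ H₀ : ℕ, ∀ H : ℕ, H₀ ≤ H →
    (((Bad ω a b Γ G Φ Λ H).ncard : ℕ) : ℝ) ≤
      (2 * (H : ℝ) + 1) ^ (Fintype.card (Σ j, ι j) * N) *
        Real.exp (-c * (Real.log H / Real.log (Real.log H)))

theorem mainGS (K : Type) [Field K] [NumberField K] {r s m q : ℕ} (κ : ℕ)
    (a b : Fin r → ℤ) (G : Fin q → Pol (𝓞 K) r s m) (σ : K →+* ℂ) (k₀ : ℕ) (δ : ℝ)
    (hδ0 : 0 < δ) (hδ1 : δ < 1) (hS : SieveGS K κ a b G σ k₀ δ) : MainGS K κ a b G σ k₀ := by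
  classical
  intro Φ ι _ Λ d e hdΦ heΦ hdΛ heΛ hsf L _ _ _ hsw Γ hΓ N ω
  obtain ⟨p₀, R, hSv⟩ := hS Φ ι Λ d e hdΦ heΦ hdΛ heΛ hsf L hsw Γ hΓ N ω
  obtain ⟨n₁, hn₁⟩ := exists_pow_lt_of_lt_one (show (0 : ℝ) < 2 / 3 by norm_num)
    (show 1 - δ < 1 by linarith)
  obtain ⟨n₀, hn₀, hn₀'⟩ : ∃ n₀ : ℕ, 0 < n₀ ∧ (1 - δ) ^ n₀ ≤ 2 / 3 := by
    refine ⟨n₁ + 1, by omega, ?_⟩
    have h1 : (1 - δ) ^ (n₁ + 1) ≤ (1 - δ) ^ n₁ :=
      pow_le_pow_of_le_one (by linarith) (by linarith) (by omega)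
    linarith
  have hn₀r : (0 : ℝ) < n₀ := by exact_mod_cast hn₀
  obtain ⟨M, _, _, hM1, hM3, hM⟩ := _root_.W580.FK.main L
  obtain ⟨τ, hτ0, hτ1, κ', hκ', Y, hY⟩ := sp2 M True True (fun _ => hM1) (fun _ => hM3)
  obtain ⟨Y₂, hY₂⟩ := floor_step2 hτ0 hτ1
  obtain ⟨c, hc, H₀, hH3, hA⟩ := t_ASYK (Fintype.card ((Σ j, ι j) × Fin N)) R (κ' / (4 * n₀)) ((τ + 1) / 2)
    (by positivity) (by linarith) (by linarith)
  set M' : ℕ := p₀ + 2 * n₀ + 2 with hM'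
  set N' : ℕ := ⌈(4 * (M' : ℝ) / κ') ^ 2⌉₊ with hN'
  refine ⟨c, hc, max H₀ (4 ^ (max Y (max 3 (max N' Y₂)))), ?_⟩
  intro H hH
  have hH0 : H₀ ≤ H := (le_max_left _ _).trans hH
  have hH1 : 4 ^ (max Y (max 3 (max N' Y₂))) ≤ H := (le_max_right _ _).trans hH
  have hy0 := W_Z1K.le_floor_of_pow hH1
  have hpow := W_Z1K.pow_le_of_floor H
  set y : ℕ := ⌊Real.log (2 * H + 1) / Real.log 4⌋₊ with hy
  have hyY : Y ≤ y := (le_max_left _ _).trans hy0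
  have hy3 : 3 ≤ y := ((le_max_left _ _).trans (le_max_right _ _)).trans hy0
  have hyN : N' ≤ y := (((le_max_left _ _).trans (le_max_right _ _)).trans (le_max_right _ _)).trans
    hy0
  have hyY2 : Y₂ ≤ y := (((le_max_right _ _).trans (le_max_right _ _)).trans
    (le_max_right _ _)).trans hy0
  set T : Finset ℕ := ((DegP M True True y \ RoughP τ y) \ RoughM τ y).filter (fun p => M' ≤ p)
    with hT
  have hmemT : ∀ p ∈ T, (1 ≤ p ∧ p ≤ y) ∧ (p.Prime ∧ CondP True True p ∧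
      Nonempty (𝓞 M →+* ZMod p)) ∧
      (∀ q : ℕ, q.Prime → q ∣ p + 1 → q ≤ ⌊(y : ℝ) ^ τ⌋₊) ∧
      (∀ q : ℕ, q.Prime → q ∣ p - 1 → q ≤ ⌊(y : ℝ) ^ τ⌋₊) ∧ M' ≤ p := by
    intro p hp
    rw [hT, Finset.mem_filter, Finset.mem_sdiff, Finset.mem_sdiff] at hp
    obtain ⟨⟨⟨h1, h3⟩, h4⟩, h2⟩ := hp
    unfold DegP at h1
    rw [Finset.mem_filter, Finset.mem_Icc] at h1
    refine ⟨h1.1, h1.2, ?_, ?_, h2⟩
    · intro q hq hqp
      by_contra hcon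
      apply h3
      unfold RoughP
      rw [Finset.mem_filter, Finset.mem_Icc]
      exact ⟨h1.1, h1.2.1, q, hq, hqp, not_le.1 hcon⟩
    · intro q hq hqp
      by_contra hcon
      apply h4
      unfold RoughM
      rw [Finset.mem_filter, Finset.mem_Icc]
      exact ⟨h1.1, h1.2.1, q, hq, hqp, not_le.1 hcon⟩
  -- cardinality
  have hcard : ((((DegP M True True y \ RoughP τ y) \ RoughM τ y)).card : ℝ) ≤
      (T.card : ℝ) + M' := by
    have h1 : ((DegP M True True y \ RoughP τ y) \ RoughM τ y) ⊆ T ∪ Finset.range M' := by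
      intro p hp
      rw [Finset.mem_union]
      by_cases hpM : M' ≤ p
      · left
        rw [hT, Finset.mem_filter]
        exact ⟨hp, hpM⟩
      · right
        rw [Finset.mem_range]
        omega
    have h2 := (Finset.card_le_card h1).trans (Finset.card_union_le _ _)
    rw [Finset.card_range] at h2
    exact_mod_cast h2
  have hκy := hY y hyY
  have hyr3 : (3 : ℝ) ≤ (y : ℝ) := by exact_mod_cast hy3
  have hMy : (M' : ℝ) ≤ κ' / 2 * (y / Real.log y) := by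
    have h1 := W_Z1K.div_log_ge hyr3
    have h2 : 4 * (M' : ℝ) / κ' ≤ Real.sqrt y := by
      apply Real.le_sqrt_of_sq_le
      have h3 : (4 * (M' : ℝ) / κ') ^ 2 ≤ (N' : ℝ) := Nat.le_ceil _
      have h4 : (N' : ℝ) ≤ (y : ℝ) := by exact_mod_cast hyN
      exact h3.trans h4
    have h5 : 4 * (M' : ℝ) ≤ Real.sqrt y * κ' := by
      rwa [div_le_iff₀ hκ'] at h2
    have h6 : κ' / 2 * (Real.sqrt y / 2) ≤ κ' / 2 * (y / Real.log y) :=
      mul_le_mul_of_nonneg_left h1 (by positivity)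
    nlinarith
  have hTcard : κ' / 2 * (y / Real.log y) ≤ (T.card : ℝ) := by
    have h1 : κ' * (y / Real.log y) = κ' / 2 * (y / Real.log y) + κ' / 2 * (y / Real.log y) := by ring
    linarith
  -- the integer L
  obtain ⟨L₁, hL1, hL2, hL3⟩ := t_LY y ⌊(y : ℝ) ^ τ⌋₊
  have hL2' : ((2 * L₁ ^ 2 : ℕ) : ℝ) ≤ ((y : ℝ) + 1) ^ ⌊(y : ℝ) ^ ((τ + 1) / 2)⌋₊ := by
    have h1 : (L₁ : ℝ) ≤ ((y : ℝ) + 1) ^ ⌊(y : ℝ) ^ τ⌋₊ := by exact_mod_cast hL2
    have h2 : ((y : ℝ) + 1) ^ (2 * ⌊(y : ℝ) ^ τ⌋₊ + 1) ≤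
        ((y : ℝ) + 1) ^ ⌊(y : ℝ) ^ ((τ + 1) / 2)⌋₊ :=
      pow_le_pow_right₀ (by linarith) (hY₂ y hyY2)
    refine le_trans ?_ h2
    rw [pow_succ ((y : ℝ) + 1), mul_comm 2 ⌊(y : ℝ) ^ τ⌋₊, pow_mul]
    push_cast
    have h3 : (0 : ℝ) ≤ (L₁ : ℝ) := by positivity
    have h4 := pow_le_pow_left₀ h3 h1 2
    have h5 : (0 : ℝ) ≤ (L₁ : ℝ) ^ 2 := by positivity
    nlinarith
  have hGT : GoodT L p₀ T (2 * L₁ ^ 2) := by
    refine ⟨by have := Nat.pow_pos (n := 2) hL1; omega, ?_⟩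
    intro p hpT
    obtain ⟨h1, ⟨h2, h3, h6⟩, h4, h4', h5⟩ := hmemT p hpT
    haveI : Fact p.Prime := ⟨h2⟩
    have h7 := h3.1 trivial
    have h8 := h3.2 trivial
    have h9 : p + 1 ∣ L₁ := hL3 (p + 1) (by omega) (by omega) h4
    have h10 : p - 1 ∣ L₁ := hL3 (p - 1) (by omega) (by omega) h4'
    refine ⟨h2, by omega, by omega, hM p h7 h6, ?_, ?_⟩
    · exact Nat.mul_dvd_mul_left 2 (h9.trans (dvd_pow_self _ two_ne_zero))
    · have h11 : p ^ 2 - 1 = (p + 1) * (p - 1) := by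
        have := Nat.sq_sub_sq p 1
        simpa using this
      rw [h11, pow_two]
      exact (mul_dvd_mul h9 h10).trans (dvd_mul_left _ _)
  have hprod : ∏ p ∈ T, p ≤ 2 * H + 1 := by
    have h1 : ∏ p ∈ T, p ≤ primorial y := by
      unfold primorial
      apply Finset.prod_le_prod_of_subset_of_one_le'
      · intro p hp
        obtain ⟨h1, h2, h3, h4⟩ := hmemT p hp
        rw [Finset.mem_filter, Finset.mem_range]
        exact ⟨by omega, h2.1⟩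
      · intro p hp _
        exact (Finset.mem_filter.1 hp).2.one_lt.le
    exact (h1.trans (primorial_le_four_pow y)).trans hpow
  have hfin := hSv T (2 * L₁ ^ 2) hGT H hprod
  have hTn : 2 * n₀ ≤ T.card := by
    have h1 : ((2 * n₀ : ℕ) : ℝ) ≤ T.card := by
      have h2 : ((2 * n₀ : ℕ) : ℝ) ≤ (M' : ℝ) := by
        have : 2 * n₀ ≤ M' := by omega
        exact_mod_cast this
      linarith
    exact_mod_cast h1
  have hTdiv : κ' / (4 * n₀) * (y / Real.log y) ≤ ((T.card / n₀ : ℕ) : ℝ) := by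
    have h1 : T.card < n₀ * (T.card / n₀) + n₀ := by
      have := Nat.div_add_mod T.card n₀
      have := Nat.mod_lt T.card hn₀
      omega
    have h2 : T.card ≤ 2 * n₀ * (T.card / n₀) := by
      have h3 : n₀ ≤ n₀ * (T.card / n₀) := by
        have h4 : 2 ≤ T.card / n₀ := (Nat.le_div_iff_mul_le hn₀).2 hTn
        exact Nat.le_mul_of_pos_right _ (by omega)
      have h5 : 2 * n₀ * (T.card / n₀) = n₀ * (T.card / n₀) + n₀ * (T.card / n₀) := by ring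
      omega
    have h3 : (T.card : ℝ) ≤ 2 * n₀ * ((T.card / n₀ : ℕ) : ℝ) := by exact_mod_cast h2
    have h4 : (0 : ℝ) < n₀ := by exact_mod_cast hn₀
    have h5 : κ' / (4 * n₀) * (y / Real.log y) = (κ' / 2 * (y / Real.log y)) / (2 * n₀) := by
      field_simp
      ring
    rw [h5, div_le_iff₀ (by positivity)]
    linarith
  have hfin1 : (2 * (2 * (H : ℝ) + 1)) ^ Fintype.card ((Σ j, ι j) × Fin N) *
      (((2 * L₁ ^ 2 : ℕ) : ℝ) ^ R * (1 - δ) ^ T.card) ≤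
      (2 * (2 * (H : ℝ) + 1)) ^ Fintype.card ((Σ j, ι j) × Fin N) *
      (((2 * L₁ ^ 2 : ℕ) : ℝ) ^ R * (2 / 3) ^ (T.card / n₀)) := by
    apply mul_le_mul_of_nonneg_left _ (by positivity)
    apply mul_le_mul_of_nonneg_left _ (by positivity)
    have h2 : (1 - δ) ^ T.card ≤ (1 - δ) ^ (n₀ * (T.card / n₀)) :=
      pow_le_pow_of_le_one (by linarith) (by linarith) (Nat.mul_div_le _ _)
    refine h2.trans ?_
    rw [pow_mul]
    exact pow_le_pow_left₀ (pow_nonneg (by linarith) _) hn₀' _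
  have hfin2 := (hfin.trans hfin1).trans
    (hA H hH0 y (T.card / n₀) (2 * L₁ ^ 2) hy hTdiv hL2')
  rwa [Fintype.card_prod, Fintype.card_fin] at hfin2


end Pool.Agent.N89.GS
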